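import Pool.Agent.Work.MP_0b08b2_co.Base

set_option autoImplicit false

/-! Recolouring balls with prescribed colours at the centres. -/

namespace Pool.Agent.TC.K

variable {V : Type}

theorem node0 {G : Str V} {κ : V → Bool} {b : V → Bool × Bool} {z : V} {w : ℕ}
    (vv ee : L → List L → Fin 4) (Z : Fin 4)
    (hk : ∀ c, G.Inner κ b z (vv c) (ee c) [c] w) (hw : 0 < w)
    (hP : ∀ v e : List L → Fin 4, v [] = Z → (∀ c, v [c] = vv c [c]) →
      (∀ c, e [c] = ee c [c]) → PU v e []) :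
    ∃ v e, v [] = Z ∧ (∀ c, e [c] = ee c [c]) ∧ G.Inner κ b z v e [] w := by
  obtain ⟨v, hv0, hv⟩ := SoundAux.glue [] vv Z
  obtain ⟨e, -, he⟩ := SoundAux.glue [] ee Z
  refine ⟨v, e, hv0, fun c => he c _ List.suffix_rfl, fun X hX hW => ?_⟩
  rcases SoundAux.suffix_cases hW with rfl | ⟨c, hc⟩
  · exact ⟨fun _ => hP v e hv0 (fun c => hv c _ List.suffix_rfl)
      (fun c => he c _ List.suffix_rfl), fun h => absurd h hw.ne⟩
  · exact SoundAux.inner_congr (hv c) (he c) (hk c) X hX hc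

theorem quad : ∀ a0 a1 a2 a3 : Fin 4, [a0, a3, a1, a2].Nodup →
    a1 ≠ a0 ∧ a3 ≠ a0 ∧ a0 ≠ a1 ∧ a3 ≠ a1 ∧ [a2, a1, a0, a3].Nodup ∧ [a0, a1, a3, a2].Nodup := by
  decide

theorem sound_ball (G : Str V) (κ : V → Bool) (b : V → Bool × Bool) (z : V) (d : ℕ)
    (hR : ∀ X, Red X → 1 ≤ wt X → wt X ≤ d + 1 → G.Rel κ b (G.ev z X))
    (hb : ∀ f x, ¬ bad d f (G.rd κ b d f x)) (a0 a1 a2 a3 : Fin 4)
    (ha : [a0, a3, a1, a2].Nodup) :
    ∃ v e, v [] = a0 ∧ e [.P] = a3 ∧ e [.S] = a1 ∧ e [.M] = a2 ∧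
      G.Inner κ b z v e [] (d + 1) := by
  have hF : ∀ k x, (outF d k (G.rd κ b d true x)).2 = 1 := fun k x => by
    by_contra h
    exact hb true x ⟨k, h⟩
  have hB : ∀ σ x, outB d σ (G.rd κ b d false x) = 1 := fun σ x => by
    by_contra h
    exact hb false x ⟨σ, h⟩
  have fS : ∀ W0 : List L, Red (.S :: W0) → wt W0 = 0 → ∀ A C : Fin 4, A ≠ C →
      ∃ v e, e (.S :: W0) = A ∧ v (.S :: W0) ≠ C ∧ G.Inner κ b z v e (.S :: W0) (d + 1) := by
    intro W0 hW hw A C hAC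
    have w1 : wt (.S :: W0) = 1 := by
      show wt W0 + 1 = 1
      omega
    have := ((sound_tree G κ b z d).1 W0 hW fun X hX hs hx =>
      hR X hX (w1 ▸ wt_le_of_suffix hs) (by omega)).2 A C (by rw [hF]; exact sem_full _ _ _ hAC)
    rwa [w1, add_comm] at this
  have fP : ∀ W0 : List L, Red (.P :: W0) → wt W0 = 0 → ∀ A C : Fin 4, A ≠ C →
      ∃ v e, e (.P :: W0) = A ∧ v (.P :: W0) ≠ C ∧ G.Inner κ b z v e (.P :: W0) (d + 1) := by
    intro W0 hW hw A C hAC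
    have w1 : wt (.P :: W0) = 1 := by
      show wt W0 + 1 = 1
      omega
    have := (sound_tree G κ b z d).2 W0 hW (fun X hX hs hx =>
      hR X hX (w1 ▸ wt_le_of_suffix hs) (by omega)) A C (by rw [hB]; exact sem_full _ _ _ hAC)
    rwa [w1, add_comm] at this
  obtain ⟨q1, q2, q3, q4, q5, q6⟩ := quad a0 a1 a2 a3 ha
  obtain ⟨v1, e1, he1, c1, h1⟩ := fS [] trivial rfl a1 a0 q1
  obtain ⟨v2, e2, he2, c2, h2⟩ := fP [] trivial rfl a3 a0 q2
  obtain ⟨v3, e3, he3, c3, h3⟩ := fS [.M] ⟨by decide, trivial⟩ rfl a0 a1 q3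
  obtain ⟨v4, e4, he4, c4, h4⟩ := fP [.M] ⟨by decide, trivial⟩ rfl a3 a1 q4
  obtain ⟨vm, em, hem, hvm, hm⟩ := SoundAux.node2 (G := G) (κ := κ) (b := b) (z := z) .M []
    (w := d + 1) (Nat.succ_pos d) v3 e3 v4 e4 a1 a2 h3 h4
    (by simp only [kids, he3, he4]; exact q5) c3 c4
  obtain ⟨v, e, hv, he, h⟩ := node0 (G := G) (κ := κ) (b := b) (z := z) (w := d + 1)
    (fun c => match c with | .S => v1 | .P => v2 | .M => vm)
    (fun c => match c with | .S => e1 | .P => e2 | .M => em) a0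
    (fun c => match c with | .S => h1 | .P => h2 | .M => hm) (Nat.succ_pos d)
    (fun v e hv kv ke => by
      simp only [PU, hv, kv, ke, he1, he2, hem, hvm]
      exact ⟨q6, c1, c2, q1⟩)
  exact ⟨v, e, hv, (he .P).trans he2, (he .S).trans he1, (he .M).trans hem, h⟩

/-- Colouring of a structure with prescribed colours at the points of `A`. -/
def ColAt (G : Str V) (A : V → Prop) (t0 t1 t2 t3 : V → Fin 4) : Prop :=
  ∃ cv ca cm : V → Fin 4, (∀ x, cm (G.m x) = cm x) ∧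
    (∀ x, [cv x, ca x, ca (G.s x), cm x].Nodup ∧ cv x ≠ cv (G.s x) ∧ cv x ≠ cv (G.m x)) ∧
    ∀ z, A z → cv z = t0 z ∧ ca z = t3 z ∧ ca (G.s z) = t1 z ∧ cm z = t2 z

theorem glue (G : Str V) (a0 : V → Prop) (κ : V → Bool) (b : V → Bool × Bool)
    (d g : ℕ) (hF : G.Free g) (hg : 4 * d + 8 ≤ g)
    (hiso : ∀ z W, a0 z → W.length ≤ 4 * d + 8 → a0 (G.ev z W) → G.ev z W = z)
    (hrel : ∀ x, ¬ a0 x → ¬ a0 (G.m x) → G.Rel κ b x)
    (hb : ∀ f x, ¬ bad d f (G.rd κ b d f x)) (hd : 1 ≤ d) (t0 t1 t2 t3 : V → Fin 4)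
    (ht : ∀ z, [t0 z, t3 z, t1 z, t2 z].Nodup) : ColAt G a0 t0 t1 t2 t3 := by
  classical
  have uniq : ∀ z z' X X', a0 z → a0 z' → Red X → Red X' → wt X ≤ d + 1 → wt X' ≤ d + 1 →
      G.ev z X = G.ev z' X' → z = z' ∧ X = X' := by
    intro z z' X X' hz hz' hX hX' hw hw' he
    have l1 := length_le_wt hX
    have l2 := length_le_wt hX'
    have h1 : G.ev z (invW X' ++ X) = z' := by rw [ev_append, he, ev_invW]
    have h2 := hiso z (invW X' ++ X) hz
      (by rw [List.length_append, length_invW]; omega) (by rwa [h1])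
    obtain rfl : z = z' := h2.symm.trans h1
    exact ⟨rfl, free_inj hF hX hX' (by omega) he⟩
  have ex : ∀ z, a0 z → ∃ v e : List L → Fin 4, v [] = t0 z ∧ e [.P] = t3 z ∧ e [.S] = t1 z ∧
      e [.M] = t2 z ∧ G.Inner κ b z v e [] (d + 1) := by
    intro z hz
    have na : ∀ X, Red X → 1 ≤ wt X → wt X ≤ d + 1 → ¬ a0 (G.ev z X) := by
      intro X hX h1 h2 ha
      have := (uniq z _ X [] hz ha hX trivial h2 (Nat.zero_le _) rfl).2
      rw [this] at h1
      exact absurd h1 (by decide)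
    refine sound_ball G κ b z d (fun X hX h1 h2 => hrel _ (na X hX h1 h2) ?_) hb _ _ _ _ (ht z)
    have := na (cc .M X) (red_cc _ hX) (by rwa [glue_wt_M]) (by rwa [glue_wt_M])
    rwa [ev_cc] at this
  choose! v e hv0 heP heS heM hve using ex
  have hPU : ∀ z, a0 z → ∀ X, Red X → wt X < d + 1 → PU (v z) (e z) X := fun z hz X hX =>
    (hve z hz X hX List.nil_suffix).1
  let In : V → Prop := fun x => ∃ z X, a0 z ∧ Red X ∧ wt X ≤ d ∧ G.ev z X = x
  have mk : ∀ (F : V → List L → Fin 4) (B : V → Fin 4), ∃ c : V → Fin 4,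
      (∀ z X, a0 z → Red X → wt X ≤ d → c (G.ev z X) = F z X) ∧ ∀ x, ¬ In x → c x = B x := by
    intro F B
    refine ⟨fun x => if h : In x then F h.choose h.choose_spec.choose else B x, ?_,
      fun x h => dif_neg h⟩
    intro z X hz hX hw
    have h : In (G.ev z X) := ⟨z, X, hz, hX, hw, rfl⟩
    obtain ⟨h1, h2, h3, h4⟩ := h.choose_spec.choose_spec
    obtain ⟨e1, e2⟩ := uniq _ _ _ _ h1 hz h2 hX (by omega) (by omega) h4
    simp only [dif_pos h]
    rw [e2, e1]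
  obtain ⟨cv, cv1, cv2⟩ := mk v fun x => cvS (κ x, b x)
  obtain ⟨ca, ca1, ca2⟩ := mk (fun z => glue_ed (e z) .P) fun x => caS (κ x, b x)
  obtain ⟨cm, cm1, cm2⟩ := mk (fun z => glue_ed (e z) .M) fun x => cmS (κ (G.s x)) (b x)
  have leaf : ∀ z X, a0 z → Red X → wt X = d + 1 → ¬ In (G.ev z X) := by
    rintro z X hz hX hw ⟨z', X', h1, h2, h3, h4⟩
    obtain ⟨-, rfl⟩ := uniq _ _ _ _ h1 hz h2 hX (by omega) (by omega) h4
    omega
  have inM : ∀ x, In (G.m x) → In x := by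
    rintro x ⟨z, X, h1, h2, h3, h4⟩
    refine ⟨z, cc .M X, h1, red_cc _ h2, by rwa [glue_wt_M], ?_⟩
    rw [ev_cc, h4]
    exact G.mm x
  have main : ∀ x, cm (G.m x) = cm x ∧ [cv x, ca x, ca (G.s x), cm x].Nodup ∧
      cv x ≠ cv (G.s x) ∧ cv x ≠ cv (G.m x) := by
    intro x
    by_cases hx : In x
    · obtain ⟨z, X, hz, hX, hw, rfl⟩ := hx
      have em : G.m (G.ev z X) = G.ev z (cc .M X) := (ev_cc G z .M X).symm
      have es : G.s (G.ev z X) = G.ev z (cc .S X) := (ev_cc G z .S X).symm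
      have wm : wt (cc .M X) ≤ d := by rwa [glue_wt_M]
      have hs : cv (G.ev z (cc .S X)) = v z (cc .S X) ∧
          ca (G.ev z (cc .S X)) = glue_ed (e z) .P (cc .S X) := by
        by_cases h : wt (cc .S X) ≤ d
        · exact ⟨cv1 _ _ hz (red_cc _ hX) h, ca1 _ _ hz (red_cc _ hX) h⟩
        · obtain ⟨h1, h2, -⟩ := (glue_wt .S X).resolve_left (by omega)
          have h3 := red_cc .S hX
          rw [h1] at h h3 ⊢
          have h4 : wt (.S :: X) = d + 1 := by omega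
          obtain ⟨h5, h6⟩ := (hve z hz _ h3 List.nil_suffix).2 h4 (by simp)
          have h7 := leaf _ _ hz h3 h4
          exact ⟨(cv2 _ h7).trans h5.symm, (ca2 _ h7).trans h6.symm⟩
      rw [em, es, hs.1, hs.2, cv1 _ _ hz hX hw, ca1 _ _ hz hX hw, cm1 _ _ hz hX hw,
        cv1 _ _ hz (red_cc _ hX) wm, cm1 _ _ hz (red_cc _ hX) wm]
      refine ⟨glue_ed_cc _ .M hX, ?_, glue_ne hX (by omega) (hPU z hz) _,
        glue_ne hX (by omega) (hPU z hz) _⟩
      have := glue_ed_cc (e z) .S hX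
      exact this ▸ glue_nodup (hPU z hz X hX (by omega))
    · have hm : ¬ In (G.m x) := fun h => hx (inM x h)
      have a1 : ¬ a0 x := fun h => hx ⟨x, [], h, trivial, Nat.zero_le _, rfl⟩
      have a2 : ¬ a0 (G.m x) := fun h => hm ⟨_, [], h, trivial, Nat.zero_le _, rfl⟩
      obtain ⟨r1, r2, r3⟩ := hrel x a1 a2
      obtain ⟨-, -, r4⟩ := hrel (G.m x) a2 (by rwa [G.mm])
      rw [G.mm, r1, r2] at r4
      obtain ⟨b1, b2, b3, b4⟩ := base_proper (κ x) (κ (G.s x)) (b (G.s x)) (b (G.s (G.m x)))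
      rw [← r3] at b1 b2 b3 b4
      rw [← r4] at b1 b4
      have hs : ca (G.s x) = caS (κ (G.s x), b (G.s x)) ∧ cvS (κ x, b x) ≠ cv (G.s x) := by
        by_cases h : In (G.s x)
        · obtain ⟨z, X, hz, hX, hw, he⟩ := h
          have h0 : G.ev z (cc .P X) = x := by
            rw [ev_cc, he]
            exact G.s.symm_apply_apply x
          have h : ¬ wt (cc .P X) ≤ d := fun h => hx ⟨z, _, hz, red_cc _ hX, h, h0⟩
          obtain ⟨h1, h2, h8⟩ := (glue_wt .P X).resolve_left (by omega)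
          have h3 := red_cc .P hX
          rw [h1] at h h3 h0
          have h4 : wt (.P :: X) = d + 1 := by omega
          obtain ⟨h5, h6⟩ := (hve z hz _ h3 List.nil_suffix).2 h4 (by simp)
          rw [← he, ca1 _ _ hz hX hw, cv1 _ _ hz hX hw, ← h0, ← h5]
          exact ⟨(if_neg h8).trans h6, glue_kid h3 (hPU z hz X hX (by omega))⟩
        · rw [ca2 _ h, cv2 _ h]
          exact ⟨rfl, b3⟩
      rw [hs.1, cv2 _ hx, ca2 _ hx, cm2 _ hx, cm2 _ hm, cv2 _ hm, r1, r2]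
      exact ⟨b1, b2, hs.2, b4⟩
  refine ⟨cv, ca, cm, fun x => (main x).1, fun x => (main x).2, fun z hz => ⟨?_, ?_, ?_, ?_⟩⟩
  · exact (cv1 z [] hz trivial (Nat.zero_le _)).trans (hv0 z hz)
  · exact (ca1 z [] hz trivial (Nat.zero_le _)).trans (heP z hz)
  · exact (ca1 z [.S] hz trivial hd).trans (heS z hz)
  · exact (cm1 z [] hz trivial (Nat.zero_le _)).trans (heM z hz)

end Pool.Agent.TC.K
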