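import Pool.Agent.Work.MP_0b08b2_co.K.Sum
import Pool.Agent.Work.MP_0b08b2_co.K.Glue
import Pool.Agent.Work.MP_0b08b2_co.White

set_option autoImplicit false

/-! Locally free structures with far apart marked points. -/

namespace Pool.Agent.TC.K

section
variable {V : Type} [Fintype V] [DecidableEq V] {n : ℕ}

/-- Points within distance `r` of a mark. -/
def Near (G : Str V) (A : V → Prop) (r : ℕ) (y : V) : Prop :=
  ∃ z W, A z ∧ List.length W ≤ r ∧ G.ev z W = y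

/-- Marks are more than `g` apart. -/
def Far (G : Str V) (A : V → Prop) (g : ℕ) : Prop :=
  ∀ z W, A z → List.length W ≤ g → A (G.ev z W) → G.ev z W = z

open Classical in
/-- No candidates near the marks. -/
noncomputable def tau (G : Str V) (A : V → Prop) (r : ℕ) (c : V → Fin (n + 1)) (y : V) :
    Fin (n + 1) := if Near G A r y then Fin.last n else c y

omit [Fintype V] [DecidableEq V] in
theorem tau_ne {G : Str V} {A : V → Prop} {r : ℕ} (hn : n ≠ 0) (c : V → Fin (n + 1)) {y : V}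
    (h : Near G A r y) : tau G A r c y ≠ 0 := by
  rw [tau, if_pos h]
  intro e
  exact hn (by simpa using congrArg Fin.val e)

theorem tau_act (F : Frame V) {A : V → Prop} {r : ℕ} (hn : n ≠ 0) (c : V → Fin (n + 1)) {y : V}
    (h : ¬ Near F.toStr A r y) (ha : F.act0 c y) : F.act0 (tau F.toStr A r c) y := by
  refine ⟨by rw [tau, if_neg h]; exact ha.1, fun z hz hzy => ?_⟩
  by_cases h' : Near F.toStr A r z
  · exact tau_ne hn c h'
  · rw [tau, if_neg h']
    exact ha.2 z hz hzy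

open Classical in
theorem card_near (G : Str V) {A : V → Prop} {r R g : ℕ} (hA : Far G A g)
    (hg : 2 * (r + R) ≤ g) (x : V) (Y : Finset V)
    (hY : ∀ y ∈ Y, ∃ W : List L, W.length ≤ R ∧ G.ev x W = y) :
    (Y.filter (Near G A r)).card ≤ 3 ^ (r + 1) := by
  rcases (Y.filter (Near G A r)).eq_empty_or_nonempty with h | ⟨y0, h⟩
  · rw [h]
    exact Nat.zero_le _
  · obtain ⟨h1, z0, U0, a0, l0, e0⟩ := Finset.mem_filter.1 h
    obtain ⟨W0, k0, f0⟩ := hY y0 h1
    refine (Finset.card_le_card fun y hy => ?_).trans (card_ball G r z0)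
    obtain ⟨h2, z, U, a, l, e⟩ := Finset.mem_filter.1 hy
    obtain ⟨W, k, f⟩ := hY y h2
    have e1 : G.ev z0 (invW U ++ (W ++ (invW W0 ++ U0))) = z := by
      rw [ev_append, ev_append, ev_append, e0, ← f0, ev_invW, f, ← e, ev_invW]
    have e2 := hA z0 (invW U ++ (W ++ (invW W0 ++ U0))) a0 (by
      simp only [List.length_append, length_invW]; omega) (by rw [e1]; exact a)
    rw [e1] at e2
    exact mem_ball.2 ⟨U, l, by rw [← e2]; exact e⟩

theorem isoOK (F : Frame V) {A : V → Prop} {r R g N : ℕ} (hA : Far F.toStr A g)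
    (hg : 2 * (r + R) ≤ g) (hn : n + 1 = 2 * 3 ^ (F.D + 1)) :
    IsoOK F (tau (n := n) F.toStr A r) R (4 * (3 ^ (F.D + 1)) ^ 3 * N + 3 ^ (r + 1)) N := by
  classical
  intro x Y hY hc
  have hn0 : n ≠ 0 := by
    have : 0 < 3 ^ (F.D + 1) := Nat.pow_pos (by decide)
    omega
  have h1 := card_near F.toStr hA hg x Y hY
  have h2 := Finset.card_filter_add_card_filter_not (s := Y) (Near F.toStr A r)
  have h := iso F N hn (Y.filter fun y => ¬ Near F.toStr A r y) (by omega)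
  refine (pr_mono fun c hc y hy ha => ?_).trans h
  obtain ⟨h3, h4⟩ := Finset.mem_filter.1 hy
  exact hc y h3 (tau_act F hn0 c h4 ha)

omit [Fintype V] [DecidableEq V] in
theorem agree_tw (G : Str V) (A : V → Prop) (r : ℕ) {ω ω' : Om3 V n} {S : Finset V}
    (h : Agree ω ω' S) : Agree (tw (tau G A r) ω) (tw (tau G A r) ω') S := fun v hv =>
  ⟨by simp only [tw, tau, (h v hv).1], (h v hv).2⟩

end

theorem core_of_white (d N : ℕ) (hd : 1 ≤ d) (hw : ∀ f, pr (bad d f) ≤ (1 / 2 : ℝ) ^ N)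
    (hnum : 9 * (10 * 3 ^ (d + 1) *
      (4 * (3 ^ (4 * d + 8 + 1)) ^ 3 * N + 3 ^ (4 * d + 8 + 1) + 2 + 1) *
      ((4 * (3 ^ (4 * d + 8 + 1)) ^ 3 * N + 3 ^ (4 * d + 8 + 1) + 2 + 1) *
        3 ^ (4 * d + 8 + 2))) ^ 2 ≤ 2 ^ N) :
    ∃ g : ℕ, ∀ (V : Type) [Fintype V] (G : Str V), G.Free g → ∀ A : V → Prop, Far G A g →
      ∀ t0 t1 t2 t3 : V → Fin 4, (∀ z, [t0 z, t3 z, t1 z, t2 z].Nodup) →
        ColAt G A t0 t1 t2 t3 := by
  classical
  obtain ⟨l, hl⟩ : ∃ l, l = 4 * (3 ^ (4 * d + 8 + 1)) ^ 3 * N + 3 ^ (4 * d + 8 + 1) + 2 :=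
    ⟨_, rfl⟩
  refine ⟨2 * (4 * d + 9 + 7 * l), fun V _ G hF A hA t0 t1 t2 t3 ht => ?_⟩
  have fm : ∀ x, G.m x ≠ x := fun x => hF x [.M] trivial (by simp) (by simp; omega)
  have ft : ∀ x, G.tau x ≠ x := fun x =>
    hF x [.S, .M, .P] (by simp [Red, L.inv]) (by simp) (by simp; omega)
  obtain ⟨o, ho1, ho2⟩ := exists_orient (fun x => G.m x) G.tau G.mm
    (fun x => by simp [Str.tau, G.mm]) fm ft
  let F : Frame V := { G with o := o, om := ho1, ot := ho2, D := 4 * d + 8, Lb := l, Lc := l }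
  have hFF : F.toStr.Free (2 * (4 * d + 9 + 7 * l)) := hF
  have hAA : Far F.toStr A (2 * (4 * d + 9 + 7 * l)) := hA
  obtain ⟨n, hn⟩ : ∃ n, n + 1 = 2 * 3 ^ (F.D + 1) :=
    ⟨2 * 3 ^ (F.D + 1) - 1, by have : 0 < 3 ^ (F.D + 1) := Nat.pow_pos (by decide)
                               omega⟩
  have hn0 : n ≠ 0 := by
    have : 0 < 3 ^ (F.D + 1) := Nat.pow_pos (by decide)
    omega
  have hD : F.D = 4 * d + 8 := rfl
  have hLb : F.Lb = l := rfl
  have hLc : F.Lc = l := rfl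
  have hMM : F.MM d = 10 * 3 ^ (d + 1) * (l + 1) * ((l + 1) * 3 ^ (4 * d + 8 + 2)) := rfl
  have hMpos : 0 < F.MM d := by rw [hMM]; clear * -; positivity
  have hη : (0 : ℝ) ≤ (1 / 2 : ℝ) ^ N := by clear * -; positivity
  have hi := isoOK (n := n) F (r := 4 * d + 8) (R := 1 + 3 * l) (N := N) hAA (by omega) hn
  rw [hD] at hi
  have hsum := sum_bound (n := n) (τ := tau F.toStr A (4 * d + 8)) F d ((1 / 2 : ℝ) ^ N) hη
    (fun x => est_gap F hFF (by rw [hLb]; omega) hi (by rw [hLb]; omega) (by rw [hLb, hl]) x)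
    (fun i k x ys hys => est_long F hFF (by rw [hLb, hLc]; omega) hi (by rw [hLc]; omega)
      (by rw [hLc, hl]; omega) i k x ys hys)
    (fun f x => (est_fail F hFF (by rw [hLb, hLc]; omega) f x).trans (hw f))
    (fun f x W hW i k ys hys =>
      (est_fail_mt F hFF (by rw [hLb, hLc]; omega) f x hW i k ys hys).trans
        (mul_le_mul_of_nonneg_right (hw f) (by clear * -; positivity)))
  have hnum' : 9 * (F.MM d) ^ 2 ≤ 2 ^ N := by rw [hMM, hl]; exact hnum
  obtain ⟨ω0, hω⟩ := lll (n := n) (fun i ω => F.Bad d i (tw (tau F.toStr A (4 * d + 8)) ω))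
    (fun i ω => F.Q d i (tw (tau F.toStr A (4 * d + 8)) ω)) (F.MM d) hMpos
    (fun i ω ω' hB h => dep_bad F d i _ _ hB (agree_tw _ _ _ h))
    (fun i ω _ => Q_card F d i _) (fun v => (hsum v).trans (by
      have h1 : (9 : ℝ) * (F.MM d : ℝ) ^ 2 ≤ 2 ^ N := by exact_mod_cast hnum'
      have h2 : (0 : ℝ) < (F.MM d : ℝ) := by exact_mod_cast hMpos
      have h3 : (0 : ℝ) < 2 ^ N := pow_pos two_pos N
      rw [one_div_pow, le_div_iff₀ (mul_pos three_pos h2)]
      have : 3 * (F.MM d : ℝ) * (1 / 2 ^ N) * (3 * (F.MM d : ℝ)) =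
          9 * (F.MM d : ℝ) ^ 2 / 2 ^ N := by ring
      rw [this, div_le_one h3]
      exact h1))
  have hz0 : ∀ y, Near G A (4 * d + 8) y →
      ¬ F.act0 (tw (tau F.toStr A (4 * d + 8)) ω0).1 y := fun y hy ha => tau_ne hn0 ω0.1 hy ha.1
  generalize tw (tau F.toStr A (4 * d + 8)) ω0 = ω at hω hz0
  obtain ⟨cv, ca, cm, k1, k2, k3⟩ := glue G (fun x => F.act0 ω.1 x ∨ A x) (F.kap ω.1 ω.2.1)
    (F.bits ω.1 ω.2.1 ω.2.2) d _ hF (by clear * -; omega) (by
      rintro z W (hz | hz) hW (hW' | hW')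
      · by_contra hne
        exact hz.2 _ (mem_ball.2 ⟨W, hW, rfl⟩) hne hW'.1
      · exact absurd hz (hz0 z ⟨_, invW W, hW', by rw [length_invW]; exact hW, ev_invW G z W⟩)
      · exact absurd hW' (hz0 _ ⟨z, W, hz, hW, rfl⟩)
      · exact hA z W hz (by clear * - hW; omega) hW') (by
      intro x h1 h2
      exact good_rel F (by rw [hLb, hl]; exact Nat.le_add_left 1 _)
        (by rw [hLc, hl]; exact Nat.le_add_left 1 _) ω (fun x => hω (.inl x))
        (fun i k x => hω (.inr (.inl ((i, k), x)))) x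
        (fun h => h.elim (fun h => h1 (Or.inl h)) fun h => h2 (Or.inl h)))
    (fun f x => hω (.inr (.inr (f, x)))) hd t0 t1 t2 t3 ht
  exact ⟨cv, ca, cm, k1, k2, fun z hz => k3 z (Or.inr hz)⟩

theorem core : ∃ g : ℕ, ∀ (V : Type) [Fintype V] (G : Str V), G.Free g → ∀ A : V → Prop,
    Far G A g → ∀ t0 t1 t2 t3 : V → Fin 4, (∀ z, [t0 z, t3 z, t1 z, t2 z].Nodup) →
      ColAt G A t0 t1 t2 t3 :=
  core_of_white 20 2400 (by decide) white (by decide +kernel)

end Pool.Agent.TC.K
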