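import Pool.Agent.Work.MP_0b08b2_co.Base

set_option autoImplicit false

/-! The estimates of the large girth proof when the candidate field is replaced by `τ c`. -/

namespace Pool.Agent.TC.K

variable {V : Type} [Fintype V] [DecidableEq V] {n : ℕ}

/-- Change of the candidate field. -/
def tw (τ : (V → Fin (n + 1)) → V → Fin (n + 1)) (ω : Om3 V n) : Om3 V n := (τ ω.1, ω.2)

/-- Large sets of bounded radius contain an isolated candidate of the changed field. -/
def IsoOK (F : Frame V) (τ : (V → Fin (n + 1)) → V → Fin (n + 1)) (R L0 N : ℕ) : Prop :=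
  ∀ (x : V) (Y : Finset V), (∀ y ∈ Y, ∃ W : List L, W.length ≤ R ∧ F.toStr.ev x W = y) →
    L0 ≤ Y.card → pr (fun c : V → Fin (n + 1) => ∀ y ∈ Y, ¬ F.act0 (τ c) y) ≤ (1 / 2 : ℝ) ^ N

variable {τ : (V → Fin (n + 1)) → V → Fin (n + 1)}

theorem est_gap (F : Frame V) {g N R L0 : ℕ} (hF : F.toStr.Free g) (hg : 6 * F.Lb ≤ g)
    (hi : IsoOK F τ R L0 N) (hR : 3 * F.Lb ≤ R) (hL : L0 + 2 ≤ F.Lb) (x : V) :
    pr (fun ω : Om3 V n => F.gap x (tw τ ω)) ≤ (1 / 2 : ℝ) ^ N := by
  have h := hi x ((Finset.range (F.Lb - 2)).image fun t => F.bk^[t + 1] x) (by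
    intro y hy
    obtain ⟨t, ht, rfl⟩ := Finset.mem_image.1 hy
    have h1 := Finset.mem_range.1 ht
    obtain ⟨X, -, -, -, -, x5, x6⟩ := src_bk F x (t + 1) (W := []) trivial (by simp) (by simp)
    simp only [List.length_nil] at x5
    exact ⟨X, by omega, x6.symm⟩) (by
    rw [Finset.card_image_of_injOn, Finset.card_range]
    · omega
    · intro a ha b hb e
      have h1 := Finset.mem_range.1 ha
      have h2 := Finset.mem_range.1 hb
      have := bk_iter_inj F hF hg x (a := a + 1) (b := b + 1) (by omega) (by omega) e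
      omega)
  rw [← pr_fst (B := (V → Bool) × (V × Bool → Bool))] at h
  refine (pr_mono fun ω hω y hy => ?_).trans h
  obtain ⟨t, ht, rfl⟩ := Finset.mem_image.1 hy
  have := Finset.mem_range.1 ht
  exact est_not_act F (τ ω.1) _ x hω t (by omega)

theorem est_long (F : Frame V) {g N R L0 : ℕ} (hF : F.toStr.Free g)
    (hg : 2 * (1 + 2 * F.Lc + 3 * F.Lb) ≤ g)
    (hi : IsoOK F τ R L0 N) (hR : 1 + 2 * F.Lc ≤ R) (hL : L0 + 1 ≤ F.Lc)
    (i k : Bool) (x : V) (ys : List Bool) (hys : ys.length = F.Lc) :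
    pr (fun ω : Om3 V n => F.long i k x (tw τ ω) ∧
        F.toStr.mt (F.kap (τ ω.1) ω.2.1) i ys x k) ≤
      (1 / 2 : ℝ) ^ N * (1 / 2 : ℝ) ^ F.Lc := by
  have h := hi (F.s.symm x)
    ((Finset.range (F.Lc - 1)).image fun t => F.toStr.dr i (ys.take t) x k) (by
    intro y hy
    obtain ⟨t, ht, rfl⟩ := Finset.mem_image.1 hy
    have h1 := Finset.mem_range.1 ht
    have e : x = F.toStr.ev (F.s.symm x) [.S] := by simp [Str.ev, Str.ap]
    obtain ⟨X, -, -, x3, x4⟩ := src_dr F.toStr i (F.s.symm x) (ys.take t) (W := [.S]) k trivial rfl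
    rw [← e] at x4
    rw [List.length_take_of_le (by omega)] at x3
    simp only [List.length_cons, List.length_nil] at x3
    exact ⟨X, by omega, x4.symm⟩) (by
    rw [Finset.card_image_of_injOn, Finset.card_range]
    · omega
    · intro a ha b hb e
      have h1 := Finset.mem_range.1 ha
      have h2 := Finset.mem_range.1 hb
      exact dr_take_inj F.toStr hF i ys (by omega) x k (by omega) (by omega) e)
  rw [mul_comm]
  refine (pr_prod_le _ _ ((1 / 2 : ℝ) ^ F.Lc) (by positivity) ?_ fun c _ => ?_).trans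
    (mul_le_mul_of_nonneg_left h (by positivity))
  · rintro c b ⟨h1, h2⟩ y hy ha
    obtain ⟨t, ht, rfl⟩ := Finset.mem_image.1 hy
    have h3 := Finset.mem_range.1 ht
    have h4 := not_act_of_not_stop _ _ _ _ _ _ _ h1 t h3
    have h5 := rt_eq_dr _ _ _ _ _ _ h2 t (by omega)
    exact h4 (Or.inl (h5 ▸ ha))
  · have h1 := est_kap F hF hg (τ c) (F.toStr.base true x) (rw_ i ys [hd true] k)
      (rw_nodup _ _ _ _) fun q hq => by
        obtain ⟨a1, a2, -, a4⟩ := rw_prop i ys (W := [hd true]) k trivial rfl q hq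
        exact ⟨a1, a2, by simpa [hys] using a4⟩
    rw [rw_length, hys, ← pr_fst (B := V × Bool → Bool)] at h1
    refine (pr_mono fun b hb => ?_).trans h1
    have h2 := hb.2
    rw [← ev_base F.toStr true x, mt_iff] at h2
    exact h2

theorem est_fail_gen (F : Frame V) {g r d : ℕ} (hF : F.toStr.Free g) (hr : 2 * d + 3 ≤ r)
    (hg1 : 2 * (r + 3 * F.Lb) ≤ g) (hg2 : 2 * (r + 2 * F.Lc) ≤ g) (f : Bool) (x : V)
    (R : List (List L × Bool)) (hR : (R.map Prod.fst).Nodup)
    (hR' : ∀ q ∈ R, Red q.1 ∧ ell q.1 = q.1 ∧ 1 + d < wt q.1 ∧ q.1.length ≤ r) :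
    pr (fun ω : Om3 V n => F.fail d f x (tw τ ω) ∧
        ∀ q ∈ R, F.kap (τ ω.1) ω.2.1 (F.toStr.ev (F.toStr.base f x) q.1) = q.2) ≤
      pr (bad d f) * (1 / 2 : ℝ) ^ R.length := by
  classical
  have hI := cI_prop d f (W := [hd f]) trivial rfl
  have hJ := cJ_prop d f (W := [hd f]) trivial rfl
  rw [est_wt] at hI hJ
  have key : ∀ θ : Om d f, pr (fun ω : Om3 V n =>
      F.toStr.rd (F.kap (τ ω.1) ω.2.1) (F.bits (τ ω.1) ω.2.1 ω.2.2) d f x = θ ∧
        ∀ q ∈ R, F.kap (τ ω.1) ω.2.1 (F.toStr.ev (F.toStr.base f x) q.1) = q.2) ≤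
      (1 / 4 : ℝ) ^ (cJ d f [hd f]).length *
        (1 / 2 : ℝ) ^ ((cI d f [hd f]).length + R.length) := fun θ => by
    by_contra hlt
    obtain ⟨ω0, h0, -⟩ := exists_of_pr_pos (lt_of_le_of_lt (by positivity) (not_le.1 hlt))
    refine hlt ((pr_prod_le _ (fun _ => True) _ (by positivity) (fun _ _ _ => trivial)
      fun c _ => ?_).trans (mul_le_of_le_one_right (by positivity) (pr_le_one _)))
    have h1 := est_kap F hF hg1 (τ c) (F.toStr.base f x) ((cI d f [hd f]).map (fun W =>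
      (W, F.kap (τ ω0.1) ω0.2.1 (F.toStr.ev (F.toStr.base f x) W))) ++ R) (by
        rw [List.map_append, List.map_map, List.nodup_append']
        simp only [Function.comp_def, List.map_id']
        refine ⟨cI_nodup d f trivial rfl, hR, fun W h1 h2 => ?_⟩
        obtain ⟨q, hq, rfl⟩ := List.mem_map.1 h2
        have a1 := (hI _ h1).2.2.1
        have a2 := (hR' q hq).2.2.1
        omega) fun q hq => by
        rcases List.mem_append.1 hq with hq | hq
        · obtain ⟨W, hW, rfl⟩ := List.mem_map.1 hq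
          obtain ⟨a1, a2, a3, -⟩ := hI W hW
          have a4 := length_le_wt a1
          exact ⟨a1, a2, by dsimp only; omega⟩
        · exact ⟨(hR' q hq).1, (hR' q hq).2.1, (hR' q hq).2.2.2⟩
    rw [List.length_append, List.length_map] at h1
    refine (pr_prod_le _ _ _ (by positivity) ?_ fun p _ => ?_).trans
      (mul_le_mul_of_nonneg_left h1 (by positivity))
    · rintro p β ⟨h2, h3⟩ q hq
      rcases List.mem_append.1 hq with hq | hq
      · obtain ⟨W, hW, rfl⟩ := List.mem_map.1 hq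
        rw [← h0, ← ev_base F.toStr f x, rd_eq_iff] at h2
        exact h2.1 W hW
      · exact h3 q hq
    · have h2 := bits_unif F (w := 1 + d) hF hg2 (τ c) p (F.toStr.base f x) (cJ d f [hd f]).toFinset
        (fun W hW => by
          obtain ⟨a1, a2, a3, -⟩ := hJ W (List.mem_toFinset.1 hW)
          have a4 := length_le_wt a1
          exact ⟨a1, a2, a3, by omega⟩)
        fun W => F.bits (τ ω0.1) ω0.2.1 ω0.2.2 (F.toStr.ev (F.toStr.base f x) W)
      rw [List.toFinset_card_of_nodup (cJ_nodup d f (W := [hd f]) trivial rfl)] at h2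
      refine (pr_mono fun β hβ W hW => ?_).trans h2
      have h3 := hβ.1
      rw [← h0, ← ev_base F.toStr f x, rd_eq_iff] at h3
      exact h3.2 W (List.mem_toFinset.1 hW)
  have hc := card_Om d f [hd f]
  have : Nonempty (Om d f) := Fintype.card_pos_iff.1 (by rw [hc]; positivity)
  refine (pr_mono fun ω hω => ?_).trans ((pr_exists_le (Finset.univ.filter (bad d f)) _).trans
    ((Finset.sum_le_card_nsmul _ _ _ fun θ _ => key θ).trans (le_of_eq ?_)))
  · exact ⟨_, Finset.mem_filter.2 ⟨Finset.mem_univ _, hω.1⟩, rfl, hω.2⟩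
  · rw [nsmul_eq_mul, ← pr_eq_card_mul, hc, pow_add]
    push_cast
    simp only [one_div, inv_pow]
    field_simp

theorem est_fail (F : Frame V) {g d : ℕ} (hF : F.toStr.Free g)
    (hg : 2 * (2 * d + 3 + 4 * F.Lc + 3 * F.Lb) ≤ g) (f : Bool) (x : V) :
    pr (fun ω : Om3 V n => F.fail d f x (tw τ ω)) ≤ pr (bad d f) := by
  have h := est_fail_gen (n := n) (τ := τ) F (r := 2 * d + 3) (d := d) hF le_rfl (by omega) (by omega) f x []
    List.nodup_nil (fun q hq => absurd hq List.not_mem_nil)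
  rw [List.length_nil, pow_zero, mul_one] at h
  exact (pr_mono fun ω hω => ⟨hω, fun q hq => absurd hq List.not_mem_nil⟩).trans h

theorem est_fail_mt (F : Frame V) {g d : ℕ} (hF : F.toStr.Free g)
    (hg : 2 * (2 * d + 3 + 4 * F.Lc + 3 * F.Lb) ≤ g) (f : Bool) (x : V) {W : List L}
    (hW : W ∈ cJ d f [hd f]) (i k : Bool) (ys : List Bool) (hys : ys.length = F.Lc) :
    pr (fun ω : Om3 V n => F.fail d f x (tw τ ω) ∧
        F.toStr.mt (F.kap (τ ω.1) ω.2.1) i ys (F.toStr.ev (F.toStr.base f x) W) k) ≤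
      pr (bad d f) * (1 / 2 : ℝ) ^ F.Lc := by
  obtain ⟨a1, a2, a3, -⟩ := cJ_prop d f (W := [hd f]) trivial rfl W hW
  rw [est_wt] at a3
  have a4 := length_le_wt a1
  have h := est_fail_gen (n := n) (τ := τ) F (r := 2 * d + 3 + 2 * F.Lc) (d := d) hF (by omega) (by omega)
    (by omega) f x (rw_ i ys W k) (rw_nodup _ _ _ _) fun q hq => by
      obtain ⟨b1, b2, b3, b4⟩ := rw_prop i ys k a1 a2 q hq
      exact ⟨b1, b2, by omega, by omega⟩
  rw [rw_length, hys] at h
  exact (pr_mono fun ω hω => ⟨hω.1, (mt_iff _ _ _ _ _ _ _).1 hω.2⟩).trans h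

end Pool.Agent.TC.K
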