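import Pool.Agent.Work.MP_0b08b2_co.K.Main

set_option autoImplicit false

/-! Isolated vertices of the core: add one neighbour to the core. -/

namespace Pool.Agent.TC.K

theorem third : ∀ a : Fin 4, a + 1 ≠ a ∧ a + 2 ≠ a ∧ a + 2 ≠ a + 1 := by decide

theorem ext_full : ∃ g : ℕ, ∀ (X : Type) [Fintype X] (G H : SimpleGraph X) (K : Set X),
    (∀ u v, H.Adj u v ↔ G.Adj u v ∧ ¬ (u ∈ K ∧ v ∈ K)) → (∀ v, (G.neighborSet v).ncard ≤ 3) →
    GirthGe H g → FarG H (· ∈ K) g → ∀ (f0 : X → Fin 4) (c0 : X → X → Fin 4),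
    IsTC (induct_res G K) f0 c0 →
    ∃ f c, IsTC G f c ∧ (∀ u ∈ K, f u = f0 u) ∧ ∀ u ∈ K, ∀ v ∈ K, G.Adj u v → c u v = c0 u v := by
  classical
  obtain ⟨g, hg⟩ := ext_core
  refine ⟨g + 4, fun X _ G H K hH hdeg hgi hfar f0 c0 ⟨s0, p0, q0, r0⟩ => ?_⟩
  -- `R k y`: `k` is isolated in the core and `y` is its chosen neighbour
  obtain ⟨R, R1, R2, R3⟩ : ∃ R : X → X → Prop,
      (∀ k y, R k y → k ∈ K ∧ (∀ v ∈ K, ¬ G.Adj k v) ∧ G.Adj k y) ∧
      (∀ k y y', R k y → R k y' → y = y') ∧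
      ∀ k ∈ K, (∀ v ∈ K, ¬ G.Adj k v) → ∀ w, G.Adj k w → ∃ y, R k y := by
    refine ⟨fun k y => k ∈ K ∧ (∀ v ∈ K, ¬ G.Adj k v) ∧ ∃ h : ∃ w, G.Adj k w, h.choose = y,
      ?_, ?_, fun k hk h w e => ⟨_, hk, h, ⟨w, e⟩, rfl⟩⟩
    · rintro k _ ⟨a, b, h, rfl⟩
      exact ⟨a, b, h.choose_spec⟩
    · rintro k _ _ ⟨-, -, h, rfl⟩ ⟨-, -, h', rfl⟩
      rfl
  have nK : ∀ k y, R k y → y ∉ K := fun k y h hy => (R1 k y h).2.1 y hy (R1 k y h).2.2
  have RH : ∀ k y, R k y → H.Adj k y := fun k y h =>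
    (hH k y).2 ⟨(R1 k y h).2.2, fun e => nK k y h e.2⟩
  have far : ∀ u v, u ∈ K → v ∈ K → ∀ p : H.Walk u v, p.length < g + 4 → u = v :=
    fun u v a b p hp => by_contra fun n => absurd (hfar u v a b n p) (by omega)
  have n2 : ∀ k y v, R k y → v ∈ K → G.Adj y v → v = k := fun k y v h hv e =>
    (far k v (R1 k y h).1 hv
      (.cons (RH k y h) (.cons ((hH y v).2 ⟨e, fun z => nK k y h z.1⟩) .nil)) (by simp)).symm
  have n3 : ∀ k y k' y', R k y → R k' y' → ¬ G.Adj y y' := fun k y k' y' h h' e => by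
    obtain rfl := far k k' (R1 k y h).1 (R1 k' y' h').1
      (.cons (RH k y h) (.cons ((hH y y').2 ⟨e, fun z => nK k y h z.1⟩)
        (.cons (RH k' y' h').symm .nil))) (by simp)
    exact e.ne (R2 k y y' h h')
  have Rinj : ∀ k k' y, R k y → R k' y → k = k' := fun k k' y h h' =>
    (n2 k y k' h (R1 k' y h').1 (R1 k' y h').2.2.symm).symm
  let K' : Set X := {v | v ∈ K ∨ ∃ k, R k v}
  let H' : SimpleGraph X := G.deleteEdges {e | ∀ x ∈ e, x ∈ K'}
  have hH' : ∀ u v, H'.Adj u v ↔ G.Adj u v ∧ ¬ (u ∈ K' ∧ v ∈ K') := fun u v => by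
    simp [H', SimpleGraph.deleteEdges_adj]
  have le : H' ≤ H := fun u v e => (hH u v).2 ⟨((hH' u v).1 e).1, fun z =>
    ((hH' u v).1 e).2 ⟨Or.inl z.1, Or.inl z.2⟩⟩
  have cyc : ∀ k y, R k y → ∀ p : H'.Walk y k, g ≤ p.length := fun k y h p => by
    have h1 := hgi k (.cons (RH k y h) (p.bypass.mapLe le)) (by
      rw [SimpleGraph.Walk.cons_isCycle_iff]
      refine ⟨(SimpleGraph.Walk.bypass_isPath p).mapLe le, fun e => ?_⟩
      rw [SimpleGraph.Walk.edges_mapLe_eq_edges] at e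
      exact ((hH' k y).1 (p.bypass.edges_subset_edgeSet e)).2
        ⟨Or.inl (R1 k y h).1, Or.inr ⟨k, h⟩⟩)
    have h2 := p.length_bypass_le
    rw [SimpleGraph.Walk.length_cons, SimpleGraph.Walk.length_mapLe] at h1
    omega
  have far' : FarG H' (· ∈ K') g := by
    rintro u v (hu | ⟨k, hu⟩) (hv | ⟨k', hv⟩) n p
    · have := hfar u v hu hv n (p.mapLe le)
      rw [SimpleGraph.Walk.length_mapLe] at this
      omega
    · by_contra hl
      obtain rfl := far u k' hu (R1 k' v hv).1 ((p.mapLe le).concat (RH k' v hv).symm) (by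
        rw [SimpleGraph.Walk.length_concat, SimpleGraph.Walk.length_mapLe]; omega)
      have := cyc u v hv p.reverse
      rw [SimpleGraph.Walk.length_reverse] at this
      omega
    · by_contra hl
      obtain rfl := far k v (R1 k u hu).1 hv (.cons (RH k u hu) (p.mapLe le)) (by
        rw [SimpleGraph.Walk.length_cons, SimpleGraph.Walk.length_mapLe]; omega)
      exact hl (cyc k u hu p)
    · by_contra hl
      obtain rfl := far k k' (R1 k u hu).1 (R1 k' v hv).1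
        (.cons (RH k u hu) ((p.mapLe le).concat (RH k' v hv).symm)) (by
          rw [SimpleGraph.Walk.length_cons, SimpleGraph.Walk.length_concat,
            SimpleGraph.Walk.length_mapLe]; omega)
      exact n (R2 k u v hu hv)
  obtain ⟨f1, a1, a2⟩ : ∃ f1 : X → Fin 4, (∀ u ∈ K, f1 u = f0 u) ∧
      ∀ k y, R k y → f1 y = f0 k + 1 := by
    refine ⟨fun y => if h : ∃ k, R k y then f0 h.choose + 1 else f0 y, fun u hu => ?_,
      fun k y h => ?_⟩
    · exact dif_neg fun ⟨k, h⟩ => nK k u h hu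
    · have h' : ∃ k, R k y := ⟨k, h⟩
      simp only [dif_pos h', Rinj _ _ _ h'.choose_spec h]
  obtain ⟨c1, b0, b1, b2⟩ : ∃ c1 : X → X → Fin 4, (∀ u v, c1 u v = c1 v u) ∧
      (∀ u ∈ K, ∀ v ∈ K, c1 u v = c0 u v) ∧ ∀ k y, R k y → c1 k y = f0 k + 2 := by
    refine ⟨fun u v => if u ∈ K then (if v ∈ K then c0 u v else f0 u + 2) else
      (if v ∈ K then f0 v + 2 else 0), fun u v => ?_, fun u hu v hv => ?_, fun k y h => ?_⟩
    · by_cases hu : u ∈ K <;> by_cases hv : v ∈ K <;> simp [hu, hv, s0 u v]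
    · simp [hu, hv]
    · simp [(R1 k y h).1, nK k y h]
  have cls : ∀ u v, (induct_res G K').Adj u v → (u ∈ K ∧ v ∈ K) ∨ R u v ∨ R v u := by
    rintro u v ⟨e, hu | ⟨k, hu⟩, hv | ⟨k', hv⟩⟩
    · exact Or.inl ⟨hu, hv⟩
    · obtain rfl := n2 k' v u hv hu e.symm
      exact Or.inr (Or.inl hv)
    · obtain rfl := n2 k u v hu hv e
      exact Or.inr (Or.inr hu)
    · exact absurd e (n3 k u k' v hu hv)
  obtain ⟨f, c, ⟨s, p, q, r⟩, hx⟩ := hg X G H' K' hH' hdeg
    (fun u p hp => by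
      have := hgi u (p.mapLe le) (hp.mapLe _)
      rw [SimpleGraph.Walk.length_mapLe] at this
      omega) far' f1 c1 ⟨b0, fun u v e => by
      rcases cls u v e with h | h | h
      · rw [a1 u h.1, a1 v h.2]
        exact p0 u v ⟨e.1, h⟩
      · rw [a1 u (R1 u v h).1, a2 u v h]
        exact (third _).1.symm
      · rw [a1 v (R1 v u h).1, a2 v u h]
        exact (third _).1, fun u v e => by
      rcases cls u v e with h | h | h
      · rw [a1 u h.1, b1 u h.1 v h.2]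
        exact q0 u v ⟨e.1, h⟩
      · rw [a1 u (R1 u v h).1, b2 u v h]
        exact (third _).2.1
      · rw [b0, a2 v u h, b2 v u h]
        exact (third _).2.2, fun u v w e e' n => by
      rcases cls u v e with h | h | h <;> rcases cls u w e' with h' | h' | h'
      · rw [b1 u h.1 v h.2, b1 u h'.1 w h'.2]
        exact r0 u v w ⟨e.1, h⟩ ⟨e'.1, h'⟩ n
      · exact absurd e.1 ((R1 u w h').2.1 v h.2)
      · exact absurd h.1 (nK w u h')
      · exact absurd e'.1 ((R1 u v h).2.1 w h'.2)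
      · exact absurd (R2 u v w h h') n
      · exact absurd (R1 u v h).1 (nK w u h')
      · exact absurd h'.1 (nK v u h)
      · exact absurd (R1 u w h').1 (nK v u h)
      · exact absurd (Rinj v w u h h') n⟩
  refine ⟨fun u => if ∃ w, G.Adj u w then f u else f0 u, c,
    ⟨s, fun u v e => ?_, fun u v e => ?_, r⟩, fun u hu => ?_, fun u hu v hv e => ?_⟩
  · simp only [if_pos (⟨v, e⟩ : ∃ w, G.Adj u w), if_pos (⟨u, e.symm⟩ : ∃ w, G.Adj v w)]
    exact p u v e
  · simp only [if_pos (⟨v, e⟩ : ∃ w, G.Adj u w)]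
    exact q u v e
  · by_cases h : ∃ w, G.Adj u w
    · simp only [if_pos h]
      by_cases h' : ∀ v ∈ K, ¬ G.Adj u v
      · obtain ⟨w, e⟩ := h
        obtain ⟨y, hy⟩ := R3 u hu h' w e
        exact (hx u (Or.inl hu) y (Or.inr ⟨u, hy⟩) (R1 u y hy).2.2).1.trans (a1 u hu)
      · push Not at h'
        obtain ⟨v, hv, e⟩ := h'
        exact (hx u (Or.inl hu) v (Or.inl hv) e).1.trans (a1 u hu)
    · simp only [if_neg h]
  · exact (hx u (Or.inl hu) v (Or.inl hv) e).2.trans (b1 u hu v hv)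

end Pool.Agent.TC.K
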