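import Pool.Agent.Work.MP_0b08b2_co.K.Core

set_option autoImplicit false

/-! From marked structures to graphs with precoloured stars. -/

namespace Pool.Agent.TC.K

/-- `f, c` is a total colouring of `H`. -/
def IsTC {X : Type} (H : SimpleGraph X) (f : X → Fin 4) (c : X → X → Fin 4) : Prop :=
  (∀ u v, c u v = c v u) ∧ (∀ u v, H.Adj u v → f u ≠ f v) ∧ (∀ u v, H.Adj u v → c u v ≠ f u) ∧
    ∀ u v w, H.Adj u v → H.Adj u w → v ≠ w → c u v ≠ c u w

/-- The precolouring of the stars at the marks extends. -/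
def Ext {X : Type} (H : SimpleGraph X) (P : X → Prop) (f0 : X → Fin 4) (c0 : X → X → Fin 4) :
    Prop :=
  ∃ f c, IsTC H f c ∧ ∀ k, P k → f k = f0 k ∧ ∀ v, H.Adj k v → c k v = c0 k v

/-- The precolouring is proper on each star. -/
def StarOK {X : Type} (H : SimpleGraph X) (P : X → Prop) (f0 : X → Fin 4) (c0 : X → X → Fin 4) :
    Prop :=
  ∀ k, P k → (∀ v, H.Adj k v → c0 k v ≠ f0 k) ∧
    ∀ v w, H.Adj k v → H.Adj k w → v ≠ w → c0 k v ≠ c0 k w

/-- Marks are at least `g` apart. -/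
def FarG {X : Type} (H : SimpleGraph X) (P : X → Prop) (g : ℕ) : Prop :=
  ∀ u v, P u → P v → u ≠ v → ∀ p : H.Walk u v, g ≤ p.length

theorem exists_red {V : Type} (G : Str V) (z : V) (W : List L) :
    ∃ W', Red W' ∧ W'.length ≤ W.length ∧ G.ev z W' = G.ev z W := by
  induction W with
  | nil => exact ⟨[], trivial, le_rfl, rfl⟩
  | cons a W ih =>
    obtain ⟨W', h1, h2, h3⟩ := ih
    refine ⟨cc a W', red_cc a h1, ?_, ?_⟩
    · have := length_cc a W'
      rw [List.length_cons]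
      omega
    · rw [ev_cc, h3]
      rfl

theorem old_walk {X : Type} (H : SimpleGraph X) (G : Str X) (old : X → Prop)
    (h0 : ∀ x, G.m x ≠ x → H.Adj x (G.m x))
    (h1 : ∀ x, old x → H.Adj x (G.s x) ∧ G.s x ≠ G.m x) (z : X) (W : List L)
    (ho : G.OldW old z W) : ∃ p : H.Walk (G.ev z W) z, p.length = W.length := by
  induction W with
  | nil => exact ⟨.nil, rfl⟩
  | cons l W ih =>
    obtain ⟨p, hp⟩ := ih (base_old_tail ho)
    have h : H.Adj (G.ev z (l :: W)) (G.ev z W) := by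
      cases l
      · exact (h1 _ ho.1).1.symm
      · have := (h1 _ ho.1).1
        rw [Equiv.apply_symm_apply] at this
        exact this
      · exact (h0 _ ho.1).symm
    exact ⟨.cons h p, by rw [SimpleGraph.Walk.length_cons, hp, List.length_cons]⟩

set_option synthInstance.maxSize 4000 in
theorem fillB : ∀ (a : Fin 4) (p1 p2 p3 : Bool) (x1 x2 x3 : Fin 4), (p1 → x1 ≠ a) → (p2 → x2 ≠ a) →
    (p3 → x3 ≠ a) → (p1 → p2 → x1 ≠ x2) → (p1 → p3 → x1 ≠ x3) → (p2 → p3 → x2 ≠ x3) →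
    ∃ t1 t2 t3 : Fin 4, [a, t3, t1, t2].Nodup ∧ (p1 → t1 = x1) ∧ (p2 → t2 = x2) ∧
      (p3 → t3 = x3) := by
  decide +kernel

theorem fill (a : Fin 4) (p1 p2 p3 : Prop) (x1 x2 x3 : Fin 4) (a1 : p1 → x1 ≠ a)
    (a2 : p2 → x2 ≠ a) (a3 : p3 → x3 ≠ a) (b1 : p1 → p2 → x1 ≠ x2) (b2 : p1 → p3 → x1 ≠ x3)
    (b3 : p2 → p3 → x2 ≠ x3) :
    ∃ t1 t2 t3 : Fin 4, [a, t3, t1, t2].Nodup ∧ (p1 → t1 = x1) ∧ (p2 → t2 = x2) ∧
      (p3 → t3 = x3) := by
  classical
  have := fillB a (decide p1) (decide p2) (decide p3) x1 x2 x3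
  simp only [decide_eq_true_eq] at this
  exact this a1 a2 a3 b1 b2 b3

theorem cover {X : Type} [Fintype X] (G : Str X) (old : X → Prop) (g : ℕ)
    (h : ∀ z W, Red W → W ≠ [] → W.length ≤ g → G.OldW old z W → G.ev z W ≠ z) :
    ∃ (V : Type) (_ : Fintype V) (G' : Str V), G'.Free g ∧ ∃ φ : X → V, Function.Injective φ ∧
      (∀ x, old x → G'.s (φ x) = φ (G.s x)) ∧ (∀ x, G.m x ≠ x → G'.m (φ x) = φ (G.m x)) ∧
      ∀ x x' W, Red W → W.length ≤ g → G'.ev (φ x) W = φ x' →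
        G.OldW old x W ∧ G.ev x W = x' := by
  classical
  obtain ⟨Y, _, ⟨y0⟩, φ, hφ⟩ := exists_free_action ((X × Bool) ⊕ X) g
  refine ⟨(X × Bool) × Y, inferInstance, CoverAux.cov G old φ, fun v W hW hne hl e => ?_,
    fun x => ((x, false), y0), fun x x' e => congrArg (fun v => v.1.1) e, fun x hx => ?_,
    fun x hx => ?_, fun x x' W hW hl e => ?_⟩
  · rw [CoverAux.cov_ev] at e
    have h1 : FreeGroup.mk (CoverAux.vol G old v.1 W) = 1 := by_contra fun h1 =>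
      hφ _ h1 (FreeGroup.norm_mk_le.trans ((CoverAux.length_vol G old v.1 W).trans hl)) v.2
        (congrArg Prod.snd e)
    have h2 : CoverAux.vol G old v.1 W = [] := by
      rw [← (CoverAux.red_vol G old h v.1 W hW hl).reduce_eq, ← FreeGroup.toWord_mk, h1,
        FreeGroup.toWord_one]
    obtain ⟨h3, h4⟩ := CoverAux.old_of_vol G old v.1 W h2
    rw [h4] at e
    exact h _ W hW hne hl h3 (congrArg (fun v => v.1.1) e)
  · change CoverAux.stp G old φ .S _ = _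
    simp [CoverAux.stp, CoverAux.dbl_S, CoverAux.volt, hx, ← FreeGroup.one_eq_mk]
  · change CoverAux.stp G old φ .M _ = _
    simp [CoverAux.stp, CoverAux.dbl_M, CoverAux.m2_of_ne G (p := (x, false)) hx, CoverAux.volt,
      hx, ← FreeGroup.one_eq_mk]
  · rw [CoverAux.cov_ev] at e
    have h1 : FreeGroup.mk (CoverAux.vol G old (x, false) W) = 1 := by_contra fun h1 =>
      hφ _ h1 (FreeGroup.norm_mk_le.trans ((CoverAux.length_vol G old _ W).trans hl)) y0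
        (congrArg Prod.snd e)
    have h2 : CoverAux.vol G old (x, false) W = [] := by
      rw [← (CoverAux.red_vol G old h (x, false) W hW hl).reduce_eq, ← FreeGroup.toWord_mk, h1,
        FreeGroup.toWord_one]
    obtain ⟨h3, h4⟩ := CoverAux.old_of_vol G old (x, false) W h2
    rw [h4] at e
    exact ⟨h3, congrArg (fun v => v.1.1) e⟩

theorem ext_of_str {X : Type} [Fintype X] (H : SimpleGraph X) (g : ℕ) (hg : GirthGe H (g + 1))
    (hcore : ∀ (V : Type) [Fintype V] (G : Str V), G.Free g → ∀ A : V → Prop,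
      Far G A g → ∀ t0 t1 t2 t3 : V → Fin 4, (∀ z, [t0 z, t3 z, t1 z, t2 z].Nodup) →
        ColAt G A t0 t1 t2 t3) (P : X → Prop) (f0 : X → Fin 4) (c0 : X → X → Fin 4)
    (hP : FarG H P (g + 1)) (hst : StarOK H P f0 c0) (G : Str X)
    (old : X → Prop) (h0 : ∀ x, G.m x ≠ x → H.Adj x (G.m x))
    (h1 : ∀ x, old x → H.Adj x (G.s x) ∧ G.s x ≠ G.m x)
    (h2 : ∀ x, old x → old (G.s x) → G.s (G.s x) ≠ x)
    (h3 : ∀ u v, H.Adj u v → v = G.m u ∨ (old u ∧ G.s u = v) ∨ (old v ∧ G.s v = u)) :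
    Ext H P f0 c0 := by
  classical
  obtain ⟨V, iV, G', hfree, φ, hφ, hs, hm, hw⟩ := cover G old g (old_free H g hg G old h0 h1 h2)
  have hfar : Far G' (fun z => ∃ k, P k ∧ φ k = z) g := by
    rintro _ W ⟨k, hk, rfl⟩ hW ⟨k', hk', e⟩
    obtain ⟨W', r1, r2, r3⟩ := exists_red G' (φ k) W
    obtain ⟨o1, o2⟩ := hw k k' W' r1 (r2.trans hW) (r3.trans e.symm)
    obtain ⟨p, hp⟩ := old_walk H G old h0 h1 k W' o1
    by_cases hkk : k' = k
    · rw [← e, hkk]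
    · subst o2
      have := hP _ _ hk' hk hkk p
      omega
  have hpre : ∀ z : V, ∃ t0 t1 t2 t3 : Fin 4, [t0, t3, t1, t2].Nodup ∧ ∀ k, P k → φ k = z →
      t0 = f0 k ∧ (old k → t1 = c0 k (G.s k)) ∧ (G.m k ≠ k → t2 = c0 k (G.m k)) ∧
        (old (G.s.symm k) → t3 = c0 k (G.s.symm k)) := by
    intro z
    by_cases hz : ∃ k, P k ∧ φ k = z
    · obtain ⟨k, hk, rfl⟩ := hz
      have ap : old (G.s.symm k) → H.Adj k (G.s.symm k) ∧ G.m k ≠ G.s.symm k := fun o => by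
        obtain ⟨a, b⟩ := h1 _ o
        rw [Equiv.apply_symm_apply] at a b
        exact ⟨a.symm, fun e => b (by rw [← e, G.mm])⟩
      obtain ⟨t1, t2, t3, n, b1, b2, b3⟩ := fill (f0 k) (old k) (G.m k ≠ k) (old (G.s.symm k))
        (c0 k (G.s k)) (c0 k (G.m k)) (c0 k (G.s.symm k))
        (fun o => (hst k hk).1 _ (h1 k o).1) (fun o => (hst k hk).1 _ (h0 k o))
        (fun o => (hst k hk).1 _ (ap o).1)
        (fun o o' => (hst k hk).2 _ _ (h1 k o).1 (h0 k o') (h1 k o).2)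
        (fun o o' => (hst k hk).2 _ _ (h1 k o).1 (ap o').1 fun e => by
          have := h2 _ o' (by rw [Equiv.apply_symm_apply]; exact o)
          rw [Equiv.apply_symm_apply] at this
          exact this e)
        (fun o o' => (hst k hk).2 _ _ (h0 k o) (ap o').1 (ap o').2)
      refine ⟨f0 k, t1, t2, t3, n, fun k' _ e => ?_⟩
      obtain rfl := hφ e
      exact ⟨rfl, b1, b2, b3⟩
    · exact ⟨0, 1, 2, 3, by decide, fun k hk e => absurd ⟨k, hk, e⟩ hz⟩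
  choose t0 t1 t2 t3 ht hpre using hpre
  obtain ⟨cv, ca, cm, hcm, hp, hA⟩ := hcore V G' hfree _ hfar t0 t1 t2 t3 ht
  set c : X → X → Fin 4 := fun u v => if H.Adj u v then
    (if v = G.m u then cm (φ u) else if old u ∧ G.s u = v then ca (φ v) else ca (φ u)) else 0
    with hc
  have key : ∀ u v, H.Adj u v → (v = G.m u ∧ c u v = cm (φ u) ∧ φ v = G'.m (φ u)) ∨
      (v ≠ G.m u ∧ old u ∧ G.s u = v ∧ c u v = ca (G'.s (φ u)) ∧ φ v = G'.s (φ u)) ∨
      (v ≠ G.m u ∧ old v ∧ G.s v = u ∧ c u v = ca (φ u) ∧ φ u = G'.s (φ v)) := by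
    intro u v huv
    by_cases a : v = G.m u
    · refine Or.inl ⟨a, by simp only [hc, if_pos huv, if_pos a], ?_⟩
      rw [hm u (a ▸ huv.ne.symm), a]
    · by_cases b : old u ∧ G.s u = v
      · have e : φ v = G'.s (φ u) := by rw [hs u b.1, b.2]
        exact Or.inr (Or.inl ⟨a, b.1, b.2, by simp only [hc, if_pos huv, if_neg a, if_pos b, e], e⟩)
      · obtain ⟨d1, d2⟩ := ((h3 u v huv).resolve_left a).resolve_left b
        exact Or.inr (Or.inr ⟨a, d1, d2, by simp only [hc, if_pos huv, if_neg a, if_neg b],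
          by rw [hs v d1, d2]⟩)
  have nd : ∀ x, cv x ≠ ca x ∧ cv x ≠ ca (G'.s x) ∧ cv x ≠ cm x ∧ ca x ≠ ca (G'.s x) ∧
      ca x ≠ cm x ∧ ca (G'.s x) ≠ cm x := fun x => by
    have := (hp x).1
    simp only [List.nodup_cons, List.mem_cons, List.not_mem_nil, or_false, not_or] at this
    tauto
  refine ⟨fun v => cv (φ v), c, ⟨fun u v => ?_, fun u v huv => ?_, fun u v huv => ?_,
    fun u v w huv huw hvw => ?_⟩, fun k hk => ?_⟩
  · by_cases huv : H.Adj u v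
    · rcases key u v huv with ⟨a1, a2, a3⟩ | ⟨a0, a, a1, a2, a3⟩ | ⟨a0, a, a1, a2, a3⟩ <;>
        rcases key v u huv.symm with ⟨b1, b2, b3⟩ | ⟨b0, b, b1, b2, b3⟩ | ⟨b0, b, b1, b2, b3⟩
      · rw [a2, b2, a3, hcm]
      · exact absurd (by rw [a1, G.mm]) b0
      · exact absurd (by rw [a1, G.mm]) b0
      · exact absurd (by rw [b1, G.mm]) a0
      · exact absurd (by rw [a1, b1]) (h2 u a (a1 ▸ b))
      · rw [a2, b2, a3]
      · exact absurd (by rw [b1, G.mm]) a0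
      · rw [a2, b2, b3]
      · exact absurd (by rw [b1, a1]) (h2 u b (b1 ▸ a))
    · simp only [hc, if_neg huv, if_neg fun h : H.Adj v u => huv h.symm]
  · rcases key u v huv with ⟨-, -, a3⟩ | ⟨-, -, -, -, a3⟩ | ⟨-, -, -, -, a3⟩ <;> simp only [a3]
    exacts [(hp _).2.2, (hp _).2.1, (hp _).2.1.symm]
  · obtain ⟨n1, n2, n3, -⟩ := nd (φ u)
    rcases key u v huv with ⟨-, a2, -⟩ | ⟨-, -, -, a2, -⟩ | ⟨-, -, -, a2, -⟩ <;> rw [a2]
    exacts [n3.symm, n2.symm, n1.symm]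
  · obtain ⟨-, -, -, n4, n5, n6⟩ := nd (φ u)
    rcases key u v huv with ⟨a1, a2, -⟩ | ⟨-, -, a1, a2, -⟩ | ⟨-, -, a1, a2, -⟩ <;>
      rcases key u w huw with ⟨b1, b2, -⟩ | ⟨-, -, b1, b2, -⟩ | ⟨-, -, b1, b2, -⟩ <;> rw [a2, b2]
    exacts [absurd (a1.trans b1.symm) hvw, n6.symm, n5.symm, n6, absurd (a1.symm.trans b1) hvw,
      n4.symm, n5, n4, absurd (G.s.injective (a1.trans b1.symm)) hvw]
  · obtain ⟨a0, a3, a1, a2⟩ := hA (φ k) ⟨k, hk, rfl⟩
    obtain ⟨b0, b1, b2, b3⟩ := hpre (φ k) k hk rfl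
    refine ⟨a0.trans b0, fun v hv => ?_⟩
    rcases key k v hv with ⟨d1, d2, -⟩ | ⟨-, d0, d1, d2, -⟩ | ⟨-, d0, d1, d2, -⟩
    · rw [d2, a2, b2 (d1 ▸ hv.ne.symm), d1]
    · rw [d2, a1, b1 d0, d1]
    · have e : G.s.symm k = v := by rw [← d1, Equiv.symm_apply_apply]
      rw [d2, a3, b3 (e ▸ d0), e]

end Pool.Agent.TC.K
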