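import Pool.Agent.Work.MP_0b08b2_co.K.Graph
import Pool.Agent.Work.MP_0b08b2_co.Main

set_option autoImplicit false

/-! Bridges, and the theorem with a core. -/

namespace Pool.Agent.TC.K

theorem induct_glue {X : Type} {H : SimpleGraph X} {S : Set X} {x y : X} (hx : x ∈ S) (hy : y ∉ S)
    (hxy : H.Adj x y) (hu : ∀ u v, u ∈ S → v ∉ S → H.Adj u v → u = x ∧ v = y)
    {f1 : X → Fin 4} {c1 : X → X → Fin 4} (h1 : IsTC (induct_res H (insert y S)) f1 c1)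
    (h2 : TC4 (induct_res H (insert x Sᶜ))) :
    ∃ f c, IsTC H f c ∧ (∀ u ∈ S, f u = f1 u) ∧ ∀ u v, u ∈ S → H.Adj u v → c u v = c1 u v := by
  classical
  obtain ⟨s1, p1, q1, r1⟩ := h1
  obtain ⟨f2, c2, s2, p2, q2, r2⟩ := h2
  have a1 : (induct_res H (insert y S)).Adj x y := ⟨hxy, Or.inr hx, Or.inl rfl⟩
  have a2 : (induct_res H (insert x Sᶜ)).Adj x y := ⟨hxy, Or.inl rfl, Or.inr hy⟩
  obtain ⟨σ, hσ⟩ := Equiv.Perm.exists_extending_pair _ _
    (induct_inj (f2 x) (f2 y) (c2 x y) (p2 _ _ a2) (q2 _ _ a2).symm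
      (s2 x y ▸ (q2 _ _ a2.symm).symm))
    (induct_inj (f1 x) (f1 y) (c1 x y) (p1 _ _ a1) (q1 _ _ a1).symm
      (s1 x y ▸ (q1 _ _ a1.symm).symm))
  have e0 : σ (f2 x) = f1 x := hσ 0
  have e1 : σ (f2 y) = f1 y := hσ 1
  have e2 : σ (c2 x y) = c1 x y := hσ 2
  obtain ⟨f, hf⟩ : ∃ f : X → Fin 4, ∀ v, f v = if v ∈ S then f1 v else σ (f2 v) := ⟨_, fun _ => rfl⟩
  obtain ⟨c, hc⟩ : ∃ c : X → X → Fin 4, ∀ u v,
    c u v = if u ∈ S ∧ v ∈ S then c1 u v else σ (c2 u v) := ⟨_, fun _ _ => rfl⟩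
  have A : ∀ u v, u ∈ S → H.Adj u v → (induct_res H (insert y S)).Adj u v ∧ f u = f1 u ∧
      f v = f1 v ∧ c u v = c1 u v := fun u v h e => by
    by_cases h' : v ∈ S
    · exact ⟨⟨e, Or.inr h, Or.inr h'⟩, by rw [hf, if_pos h], by rw [hf, if_pos h'],
        by rw [hc, if_pos ⟨h, h'⟩]⟩
    · obtain ⟨rfl, rfl⟩ := hu u v h h' e
      exact ⟨a1, by rw [hf, if_pos h], by rw [hf, if_neg h', e1],
        by rw [hc, if_neg fun k => h' k.2, e2]⟩
  have B : ∀ u v, u ∉ S → H.Adj u v → (induct_res H (insert x Sᶜ)).Adj u v ∧ f u = σ (f2 u) ∧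
      f v = σ (f2 v) ∧ c u v = σ (c2 u v) := fun u v h e => by
    refine ⟨⟨e, Or.inr h, ?_⟩, by rw [hf, if_neg h], ?_, by rw [hc, if_neg fun k => h k.1]⟩
    · by_cases h' : v ∈ S
      · exact Or.inl (hu v u h' h e.symm).1
      · exact Or.inr h'
    · by_cases h' : v ∈ S
      · rw [(hu v u h' h e.symm).1, hf, if_pos hx, e0]
      · rw [hf, if_neg h']
  refine ⟨f, c, ⟨fun u v => ?_, fun u v e => ?_, fun u v e => ?_, fun u v w e e' hvw => ?_⟩,
    fun u h => by rw [hf, if_pos h], fun u v h e => (A u v h e).2.2.2⟩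
  · rw [hc, hc, s1 u v, s2 u v]
    exact if_congr and_comm rfl rfl
  · by_cases h : u ∈ S
    · obtain ⟨k, k1, k2, -⟩ := A u v h e
      rw [k1, k2]; exact p1 _ _ k
    · obtain ⟨k, k1, k2, -⟩ := B u v h e
      rw [k1, k2]; exact σ.injective.ne (p2 _ _ k)
  · by_cases h : u ∈ S
    · obtain ⟨k, k1, -, k3⟩ := A u v h e
      rw [k1, k3]; exact q1 _ _ k
    · obtain ⟨k, k1, -, k3⟩ := B u v h e
      rw [k1, k3]; exact σ.injective.ne (q2 _ _ k)
  · by_cases h : u ∈ S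
    · obtain ⟨k, -, -, k3⟩ := A u v h e
      obtain ⟨k', -, -, k4⟩ := A u w h e'
      rw [k3, k4]; exact r1 _ _ _ k k' hvw
    · obtain ⟨k, -, -, k3⟩ := B u v h e
      obtain ⟨k', -, -, k4⟩ := B u w h e'
      rw [k3, k4]; exact σ.injective.ne (r2 _ _ _ k k' hvw)

theorem ext_stars : ∃ g : ℕ, ∀ (X : Type) [Fintype X] (P : X → Prop) (f0 : X → Fin 4)
    (c0 : X → X → Fin 4) (H : SimpleGraph X), (∀ v, (H.neighborSet v).ncard ≤ 3) → GirthGe H g →
    FarG H P g → StarOK H P f0 c0 → (∀ k, P k → (H.neighborSet k).ncard ≤ 2) →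
    Ext H P f0 c0 := by
  obtain ⟨g1, hcore⟩ := core
  obtain ⟨g2, hmain⟩ := Pool.Agent.TC.main
  refine ⟨g1 + 1 + g2, fun X _ P f0 c0 H => ?_⟩
  induction H using WellFoundedLT.induction with
  | ind H ih =>
  intro hdeg hg hP hst h2
  have sub : ∀ T : Set X, induct_res H T ≤ H := fun T _ _ e => e.1
  have dg : ∀ (T : Set X) w, ((induct_res H T).neighborSet w).ncard ≤ (H.neighborSet w).ncard :=
    fun T w => Set.ncard_le_ncard (t := H.neighborSet w) fun _ k => k.1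
  have gi : ∀ T : Set X, GirthGe (induct_res H T) (g1 + 1 + g2) := fun T w p hp => by
    have := hg w (p.mapLe (sub T)) (hp.mapLe _)
    rwa [SimpleGraph.Walk.length_mapLe] at this
  by_cases hb : ∀ S : Set X, (∀ v ∈ S, (H.neighborSet v).ncard = 3) →
      {e : X × X | e.1 ∈ S ∧ e.2 ∉ S ∧ H.Adj e.1 e.2}.ncard ≠ 1
  · obtain ⟨m, hm, hadj, hcov⟩ := exists_matching H hdeg hb
    obtain ⟨G, old, e, h1, h2, h3⟩ := exists_str H hdeg m hm hadj hcov
    refine ext_of_str H g1 (fun u p hp => (by omega : g1 + 1 ≤ g1 + 1 + g2).trans (hg u p hp))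
      hcore P f0 c0
      (fun u v a b c p => (by omega : g1 + 1 ≤ g1 + 1 + g2).trans (hP u v a b c p)) hst G old
      ?_ ?_ h2 ?_
    · intro x hx; rw [e] at hx ⊢; exact hadj x hx
    · intro x hx; rw [e]; exact h1 x hx
    · intro u v huv; rw [e]; exact h3 u v huv
  push Not at hb
  obtain ⟨S, hS, h1⟩ := hb
  obtain ⟨⟨x, y⟩, h1⟩ := Set.ncard_eq_one.1 h1
  obtain ⟨hx, hy, hxy⟩ : (x, y) ∈ {e : X × X | e.1 ∈ S ∧ e.2 ∉ S ∧ H.Adj e.1 e.2} := h1.ge rfl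
  have hu : ∀ u v, u ∈ S → v ∉ S → H.Adj u v → u = x ∧ v = y := fun u v a b c =>
    Prod.mk.inj (h1.le (⟨a, b, c⟩ : (u, v) ∈ {e : X × X | e.1 ∈ S ∧ e.2 ∉ S ∧ H.Adj e.1 e.2}))
  obtain ⟨x', h4, h5⟩ := Set.exists_ne_of_one_lt_ncard
    (s := H.neighborSet x) (by rw [hS x hx]; norm_num) y
  have hlt : induct_res H (insert x Sᶜ) < H := induct_lt (u := x) (v := x') h4 (by
    rintro (e | e)
    · exact (H.ne_of_adj h4) e.symm
    · exact h5 (hu x x' hx e h4).2)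
  obtain ⟨f1, c1, k1, k2⟩ := ih _ hlt (fun w => (dg _ w).trans (hdeg w)) (gi _)
    (fun u v a b c p => by
      have := hP u v a b c (p.mapLe (sub _))
      rwa [SimpleGraph.Walk.length_mapLe] at this)
    (fun k hk => ⟨fun v e => (hst k hk).1 v e.1, fun v w e e' => (hst k hk).2 v w e.1 e'.1⟩)
    (fun k hk => (dg _ k).trans (h2 k hk))
  have k3 : TC4 (induct_res H (insert y Sᶜᶜ)) :=
    hmain X _ (fun w => (dg _ w).trans (hdeg w))
      fun u p hp => (by omega : g2 ≤ g1 + 1 + g2).trans (gi _ u p hp)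
  obtain ⟨f, c, l1, l2, l3⟩ := induct_glue (S := Sᶜ) (x := y) (y := x) hy (not_not.2 hx) hxy.symm
    (fun u v a b e => (hu v u (not_not.1 b) a e.symm).symm) k1 k3
  refine ⟨f, c, l1, fun k hk => ?_⟩
  have hk' : k ∈ Sᶜ := fun h => by
    have := hS k h
    have := h2 k hk
    omega
  refine ⟨(l2 k hk').trans (k2 k hk).1, fun v e => (l3 k v hk' e).trans ((k2 k hk).2 v ?_)⟩
  refine ⟨e, Or.inr hk', ?_⟩
  by_cases hv : v ∈ S
  · exact Or.inl (hu v k hv hk' e.symm).1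
  · exact Or.inr hv

theorem ext_inj {X : Type} [Finite X] (a : Fin 4) (I : Set X) (g : X → Fin 4)
    (hI : Set.InjOn g I) (ha : ∀ v ∈ I, g v ≠ a) (T : Set X) (hc : (I ∪ T).ncard ≤ 3) :
    ∃ h : X → Fin 4, Set.InjOn h (I ∪ T) ∧ (∀ v ∈ I ∪ T, h v ≠ a) ∧ ∀ v ∈ I, h v = g v := by
  classical
  induction T, Set.toFinite T using Set.Finite.induction_on with
  | empty => exact ⟨g, by simpa using hI, by simpa using ha, fun _ _ => rfl⟩
  | @insert t T _ _ ih =>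
    rw [Set.union_insert] at hc ⊢
    by_cases ht : t ∈ I ∪ T
    · rw [Set.insert_eq_of_mem ht] at hc ⊢
      exact ih hc
    · rw [Set.ncard_insert_of_notMem ht] at hc
      obtain ⟨h, h1, h2, h3⟩ := ih (by omega)
      obtain ⟨b, hb⟩ : ∃ b, b ∉ insert a (h '' (I ∪ T)) := by
        rw [← Set.ne_univ_iff_exists_notMem]
        intro e
        have e1 := Set.ncard_insert_le a (h '' (I ∪ T))
        have e2 := Set.ncard_image_le (s := I ∪ T) (f := h)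
        rw [e, Set.ncard_univ, Nat.card_eq_fintype_card, Fintype.card_fin] at e1
        omega
      have u : ∀ v ∈ I ∪ T, Function.update h t b v = h v := fun v hv =>
        Function.update_of_ne (fun e : v = t => ht (e ▸ hv)) _ _
      refine ⟨Function.update h t b, ?_, ?_, fun v hv => (u v (Or.inl hv)).trans (h3 v hv)⟩
      · rw [Set.injOn_insert ht]
        refine ⟨fun v hv w hw e => h1 hv hw (by rwa [u v hv, u w hw] at e), ?_⟩
        rintro ⟨v, hv, e⟩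
        rw [u v hv, Function.update_self] at e
        exact hb (Or.inr ⟨v, hv, e⟩)
      · rintro v (rfl | hv)
        · rw [Function.update_self]
          exact fun e => hb (Or.inl e)
        · rw [u v hv]
          exact h2 v hv

theorem ext_core : ∃ g : ℕ, ∀ (X : Type) [Fintype X] (G H : SimpleGraph X) (K : Set X),
    (∀ u v, H.Adj u v ↔ G.Adj u v ∧ ¬ (u ∈ K ∧ v ∈ K)) → (∀ v, (G.neighborSet v).ncard ≤ 3) →
    GirthGe H g → FarG H (· ∈ K) g → ∀ (f0 : X → Fin 4) (c0 : X → X → Fin 4),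
    IsTC (induct_res G K) f0 c0 →
    ∃ f c, IsTC G f c ∧ ∀ u ∈ K, ∀ v ∈ K, G.Adj u v → f u = f0 u ∧ c u v = c0 u v := by
  classical
  obtain ⟨g, hg⟩ := ext_stars
  refine ⟨g, fun X _ G H K hH hdeg hgi hfar f0 c0 ⟨s0, p0, q0, r0⟩ => ?_⟩
  have hstar : ∀ k, ∃ h : X → Fin 4, k ∈ K → Set.InjOn h (G.neighborSet k) ∧
      (∀ v ∈ G.neighborSet k, h v ≠ f0 k) ∧ ∀ v ∈ K, G.Adj k v → h v = c0 k v := fun k => by
    by_cases hk : k ∈ K
    · have e : (G.neighborSet k ∩ K) ∪ G.neighborSet k = G.neighborSet k :=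
        Set.union_eq_right.2 Set.inter_subset_left
      obtain ⟨h, h1, h2, h3⟩ := ext_inj (f0 k) (G.neighborSet k ∩ K) (c0 k)
        (fun v hv w hw e => by_contra fun n => r0 k v w ⟨hv.1, hk, hv.2⟩ ⟨hw.1, hk, hw.2⟩ n e)
        (fun v hv => q0 k v ⟨hv.1, hk, hv.2⟩) (G.neighborSet k) (by rw [e]; exact hdeg k)
      rw [e] at h1 h2
      exact ⟨h, fun _ => ⟨h1, h2, fun v a b => h3 v ⟨b, a⟩⟩⟩
    · exact ⟨fun _ => 0, fun h => absurd h hk⟩
  choose c1 hc1 using hstar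
  have sub : ∀ v, H.neighborSet v ⊆ G.neighborSet v := fun v w e => ((hH v w).1 e).1
  obtain ⟨f, c, ⟨s, p, q, r⟩, hx⟩ := hg X (fun k => k ∈ K ∧ ∃ v ∈ K, G.Adj k v) f0 c1 H
    (fun v => (Set.ncard_le_ncard (sub v)).trans (hdeg v)) hgi
    (fun u v a b => hfar u v a.1 b.1)
    (fun k hk => ⟨fun v e => (hc1 k hk.1).2.1 v (sub k e),
      fun v w e e' n h => n ((hc1 k hk.1).1 (sub k e) (sub k e') h)⟩)
    (fun k ⟨hk, v, hv, e⟩ => by
      have h1 : H.neighborSet k ⊆ G.neighborSet k \ {v} := fun w hw =>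
        ⟨sub k hw, fun e' => ((hH k w).1 hw).2 ⟨hk, (e' : w = v) ▸ hv⟩⟩
      have h2 := Set.ncard_le_ncard h1
      have h3 := Set.ncard_sdiff_singleton_add_one (s := G.neighborSet k) (a := v) e
      have h4 := hdeg k
      omega)
  have fin : ∀ u v, G.Adj u v → u ∈ K ∧ v ∈ K → f u = f0 u := fun u v e h =>
    (hx u ⟨h.1, v, h.2, e⟩).1
  have mix : ∀ u v w, G.Adj u v → G.Adj u w → u ∈ K ∧ v ∈ K → ¬ (u ∈ K ∧ w ∈ K) →
      c0 u v ≠ c u w := fun u v w e e' h h' => by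
    rw [(hx u ⟨h.1, v, h.2, e⟩).2 w ((hH u w).2 ⟨e', h'⟩), ← (hc1 u h.1).2.2 v h.2 e]
    exact fun z => h' ⟨h.1, (hc1 u h.1).1 e e' z ▸ h.2⟩
  refine ⟨f, fun u v => if u ∈ K ∧ v ∈ K then c0 u v else c u v,
    ⟨fun u v => ?_, fun u v e => ?_, fun u v e => ?_, fun u v w e e' n => ?_⟩,
    fun u hu v hv e => ⟨fin u v e ⟨hu, hv⟩, if_pos ⟨hu, hv⟩⟩⟩
  · simp only [s0 u v, s u v]
    exact if_congr and_comm rfl rfl
  · by_cases h : u ∈ K ∧ v ∈ K
    · rw [fin u v e h, fin v u e.symm h.symm]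
      exact p0 u v ⟨e, h⟩
    · exact p u v ((hH u v).2 ⟨e, h⟩)
  · by_cases h : u ∈ K ∧ v ∈ K
    · simp only [if_pos h, fin u v e h]
      exact q0 u v ⟨e, h⟩
    · simp only [if_neg h]
      exact q u v ((hH u v).2 ⟨e, h⟩)
  · by_cases h : u ∈ K ∧ v ∈ K <;> by_cases h' : u ∈ K ∧ w ∈ K
    · simp only [if_pos h, if_pos h']
      exact r0 u v w ⟨e, h⟩ ⟨e', h'⟩ n
    · simp only [if_pos h, if_neg h']
      exact mix u v w e e' h h'
    · simp only [if_neg h, if_pos h']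
      exact (mix u w v e' e h' h).symm
    · simp only [if_neg h, if_neg h']
      exact r u v w ((hH u v).2 ⟨e, h⟩) ((hH u w).2 ⟨e', h'⟩) n

end Pool.Agent.TC.K
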