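import Pool.Agent.Work.MP_0b08b2_co.K.Est

set_option autoImplicit false

/-! The total weight of the bad events that query a given vertex, for the changed field. -/

namespace Pool.Agent.TC.K

variable {V : Type} [Fintype V] [DecidableEq V] {n : ℕ}
variable {τ : (V → Fin (n + 1)) → V → Fin (n + 1)}

theorem route_sum (F : Frame V) (E : V → Om3 V n → Prop) (ψ : V → V)
    (hψ : Function.Injective ψ) (i k : Bool) (δ : ℝ) (hδ : 0 ≤ δ)
    (h : ∀ x ys, ys.length = F.Lc →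
      pr (fun ω => E x ω ∧ F.toStr.mt (F.kap (τ ω.1) ω.2.1) i ys (ψ x) k) ≤ δ * (1 / 2 : ℝ) ^ F.Lc)
    (t : ℕ) (ht : t ≤ F.Lc) (v : V) :
    ∑ x, pr (fun ω => E x ω ∧ F.toStr.rt (F.kap (τ ω.1) ω.2.1) i t (ψ x) k = v) ≤ δ := by
  have hc : 0 ≤ δ * (1 / 2 : ℝ) ^ F.Lc := by positivity
  have h1 : ∀ x, pr (fun ω => E x ω ∧ F.toStr.rt (F.kap (τ ω.1) ω.2.1) i t (ψ x) k = v) ≤
      ∑ g : Fin F.Lc → Bool,
        (if F.toStr.dr i ((List.ofFn g).take t) (ψ x) k = v then δ * (1 / 2 : ℝ) ^ F.Lc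
          else 0) := by
    intro x
    refine le_trans (pr_mono (E' := fun ω => ∃ g ∈ (Finset.univ : Finset (Fin F.Lc → Bool)),
      (E x ω ∧ F.toStr.mt (F.kap (τ ω.1) ω.2.1) i (List.ofFn g) (ψ x) k) ∧
        F.toStr.dr i ((List.ofFn g).take t) (ψ x) k = v) ?_) ?_
    · rintro ω ⟨hE, hr⟩
      obtain ⟨ys, hl, hm⟩ := exists_mt F.toStr (F.kap (τ ω.1) ω.2.1) i F.Lc (ψ x) k
      have hys : List.ofFn (fun j : Fin F.Lc => ys.get (j.cast hl.symm)) = ys := by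
        apply List.ext_get
        · simp [hl]
        · intro j h1 h2
          simp
      refine ⟨fun j => ys.get (j.cast hl.symm), Finset.mem_univ _, ?_⟩
      rw [hys]
      refine ⟨⟨hE, hm⟩, ?_⟩
      rw [← rt_eq_dr F.toStr _ i ys (ψ x) k hm t (hl ▸ ht)]
      exact hr
    · refine (pr_exists_le _ _).trans (Finset.sum_le_sum fun g _ => ?_)
      exact sum_and_le _ _ _ (h x _ (by simp))
  refine (Finset.sum_le_sum fun x _ => h1 x).trans ?_
  rw [Finset.sum_comm]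
  refine (Finset.sum_le_sum (g := fun _ => δ * (1 / 2 : ℝ) ^ F.Lc) fun g _ => ?_).trans ?_
  · exact sum_ite_inj (fun x => F.toStr.dr i ((List.ofFn g).take t) (ψ x) k)
      ((dr_injective F.toStr i _ k).comp hψ) v _ hc
  · rw [Finset.sum_const, nsmul_eq_mul, Finset.card_univ, Fintype.card_fun, Fintype.card_bool,
      Fintype.card_fin]
    push_cast
    have : (2 : ℝ) ^ F.Lc * (1 / 2 : ℝ) ^ F.Lc = 1 := by
      rw [← mul_pow]; norm_num
    calc (2 : ℝ) ^ F.Lc * (δ * (1 / 2 : ℝ) ^ F.Lc)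
        = δ * ((2 : ℝ) ^ F.Lc * (1 / 2 : ℝ) ^ F.Lc) := by ring
      _ ≤ δ := by rw [this, mul_one]

theorem qch_sum (F : Frame V) (E : V → Om3 V n → Prop) (ψ : V → V)
    (hψ : Function.Injective ψ) (i k : Bool) (δ : ℝ) (hδ : 0 ≤ δ)
    (h : ∀ x ys, ys.length = F.Lc →
      pr (fun ω => E x ω ∧ F.toStr.mt (F.kap (τ ω.1) ω.2.1) i ys (ψ x) k) ≤ δ * (1 / 2 : ℝ) ^ F.Lc)
    (v : V) :
    ∑ x, pr (fun ω => E x ω ∧ v ∈ F.Qch i k (ψ x) (tw τ ω)) ≤
      ((F.Lc + 1) * (2 * F.KL) : ℕ) * δ := by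
  set U : Finset V := Finset.univ.filter fun u => v ∈ F.Qloc u with hU
  have h1 : ∀ x, pr (fun ω => E x ω ∧ v ∈ F.Qch i k (ψ x) (tw τ ω)) ≤
      ∑ q ∈ Finset.range (F.Lc + 1) ×ˢ U,
        pr (fun ω => E x ω ∧ F.toStr.rt (F.kap (τ ω.1) ω.2.1) i q.1 (ψ x) k = q.2) := by
    intro x
    refine le_trans (pr_mono ?_) (pr_exists_le _ _)
    rintro ω ⟨hE, hv⟩
    obtain ⟨t, ht, hv⟩ := Finset.mem_biUnion.1 hv
    exact ⟨(t, F.toStr.rt (F.kap (τ ω.1) ω.2.1) i t (ψ x) k),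
      Finset.mem_product.2 ⟨ht, Finset.mem_filter.2 ⟨Finset.mem_univ _, hv⟩⟩, hE, rfl⟩
  refine (Finset.sum_le_sum fun x _ => h1 x).trans ?_
  rw [Finset.sum_comm]
  refine (Finset.sum_le_sum (g := fun _ => δ) fun q hq => ?_).trans ?_
  · have := Finset.mem_range.1 (Finset.mem_product.1 hq).1
    exact route_sum F E ψ hψ i k δ hδ h q.1 (by omega) q.2
  · rw [Finset.sum_const, nsmul_eq_mul, Finset.card_product, Finset.card_range]
    refine mul_le_mul_of_nonneg_right ?_ hδ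
    exact_mod_cast Nat.mul_le_mul_left _ (card_Qloc_rev F v)

theorem sum_fail (F : Frame V) (d : ℕ) (η : ℝ) (hη : 0 ≤ η) (f : Bool)
    (hfail : ∀ x, pr (fun ω : Om3 V n => F.fail d f x (tw τ ω)) ≤ η)
    (hfail' : ∀ x, ∀ W ∈ cJ d f [hd f], ∀ i k ys, ys.length = F.Lc →
      pr (fun ω : Om3 V n => F.fail d f x (tw τ ω) ∧
        F.toStr.mt (F.kap (τ ω.1) ω.2.1) i ys (F.toStr.ev (F.toStr.base f x) W) k) ≤
          η * (1 / 2 : ℝ) ^ F.Lc)
    (v : V) :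
    ∑ x, pr (fun ω : Om3 V n => F.fail d f x (tw τ ω) ∧ v ∈ F.Qf d f x (tw τ ω)) ≤
      ((1 + 3 ^ (d + 1) * F.KL + 3 ^ d * 4 * ((F.Lc + 1) * (2 * F.KL)) : ℕ) : ℝ) * η := by
  have hinj : ∀ W : List L, Function.Injective fun x => F.toStr.ev (F.toStr.base f x) W :=
    fun W => (ev_injective F.toStr W).comp (base_injective F.toStr f)
  have h1 : ∀ x, pr (fun ω : Om3 V n => F.fail d f x (tw τ ω) ∧ v ∈ F.Qf d f x (tw τ ω)) ≤
      (if x = v then η else 0) +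
        (∑ W ∈ (cI d f [hd f]).toFinset, pr (fun ω : Om3 V n => F.fail d f x (tw τ ω) ∧
          v ∈ F.QL (F.toStr.ev (F.toStr.base f x) W)) +
        ∑ q ∈ (cJ d f [hd f]).toFinset ×ˢ (Finset.univ : Finset (Bool × Bool)),
          pr (fun ω : Om3 V n => F.fail d f x (tw τ ω) ∧
            v ∈ F.Qch q.2.1 q.2.2 (F.toStr.ev (F.toStr.base f x) q.1) (tw τ ω))) := by
    intro x
    refine le_trans (pr_mono (E' := fun ω : Om3 V n => (F.fail d f x (tw τ ω) ∧ x = v) ∨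
      ((∃ W ∈ (cI d f [hd f]).toFinset, F.fail d f x (tw τ ω) ∧
          v ∈ F.QL (F.toStr.ev (F.toStr.base f x) W)) ∨
        ∃ q ∈ (cJ d f [hd f]).toFinset ×ˢ (Finset.univ : Finset (Bool × Bool)),
          F.fail d f x (tw τ ω) ∧ v ∈ F.Qch q.2.1 q.2.2 (F.toStr.ev (F.toStr.base f x) q.1) (tw τ ω))) ?_) ?_
    · rintro ω ⟨hE, hv⟩
      rcases Finset.mem_insert.1 hv with hv | hv
      · exact Or.inl ⟨hE, hv.symm⟩
      · rcases Finset.mem_union.1 hv with hv | hv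
        · obtain ⟨W, hW, hv⟩ := Finset.mem_biUnion.1 hv
          exact Or.inr (Or.inl ⟨W, hW, hE, hv⟩)
        · obtain ⟨W, hW, hv⟩ := Finset.mem_biUnion.1 hv
          obtain ⟨ik, hik, hv⟩ := Finset.mem_biUnion.1 hv
          exact Or.inr (Or.inr ⟨(W, ik), Finset.mem_product.2 ⟨hW, hik⟩, hE, hv⟩)
    · refine (pr_or_le _ _).trans (add_le_add (sum_and_le _ _ _ (hfail x)) ?_)
      exact (pr_or_le _ _).trans (add_le_add (pr_exists_le _ _) (pr_exists_le _ _))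
  refine (Finset.sum_le_sum fun x _ => h1 x).trans ?_
  rw [Finset.sum_add_distrib, Finset.sum_add_distrib]
  have hA : ∑ x, (if x = v then η else 0) ≤ η :=
    sum_ite_inj (fun x => x) Function.injective_id v η hη
  have hB : ∑ x, ∑ W ∈ (cI d f [hd f]).toFinset, pr (fun ω : Om3 V n => F.fail d f x (tw τ ω) ∧
      v ∈ F.QL (F.toStr.ev (F.toStr.base f x) W)) ≤ ((3 ^ (d + 1) * F.KL : ℕ) : ℝ) * η := by
    rw [Finset.sum_comm]
    refine (Finset.sum_le_sum (g := fun _ => (F.KL : ℝ) * η) fun W _ => ?_).trans ?_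
    · exact sum_QL F (fun x ω => F.fail d f x (tw τ ω)) _ (hinj W) η hη hfail v
    · rw [Finset.sum_const, nsmul_eq_mul, ← mul_assoc]
      refine mul_le_mul_of_nonneg_right ?_ hη
      have := (List.toFinset_card_le (cI d f [hd f])).trans (cI_length d f [hd f])
      exact_mod_cast Nat.mul_le_mul_right _ this
  have hC : ∑ x, ∑ q ∈ (cJ d f [hd f]).toFinset ×ˢ (Finset.univ : Finset (Bool × Bool)),
      pr (fun ω : Om3 V n => F.fail d f x (tw τ ω) ∧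
        v ∈ F.Qch q.2.1 q.2.2 (F.toStr.ev (F.toStr.base f x) q.1) (tw τ ω)) ≤
      ((3 ^ d * 4 * ((F.Lc + 1) * (2 * F.KL)) : ℕ) : ℝ) * η := by
    rw [Finset.sum_comm]
    refine (Finset.sum_le_sum
      (g := fun _ => (((F.Lc + 1) * (2 * F.KL) : ℕ) : ℝ) * η) fun q hq => ?_).trans ?_
    · have hW := List.mem_toFinset.1 (Finset.mem_product.1 hq).1
      exact qch_sum F (fun x ω => F.fail d f x (tw τ ω)) _ (hinj q.1) q.2.1 q.2.2 η hη
        (fun x ys hys => hfail' x q.1 hW q.2.1 q.2.2 ys hys) v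
    · rw [Finset.sum_const, nsmul_eq_mul, ← mul_assoc, Finset.card_product, Finset.card_univ,
        Fintype.card_prod, Fintype.card_bool]
      refine mul_le_mul_of_nonneg_right ?_ hη
      have := (List.toFinset_card_le (cJ d f [hd f])).trans (cJ_length d f [hd f])
      exact_mod_cast Nat.mul_le_mul_right _ (Nat.mul_le_mul_right _ this)
  push_cast at hB hC ⊢
  nlinarith

theorem sum_bound (F : Frame V) (d : ℕ) (η : ℝ) (hη : 0 ≤ η)
    (hgap : ∀ x, pr (fun ω : Om3 V n => F.gap x (tw τ ω)) ≤ η)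
    (hlong : ∀ i k x ys, ys.length = F.Lc →
      pr (fun ω : Om3 V n => F.long i k x (tw τ ω) ∧ F.toStr.mt (F.kap (τ ω.1) ω.2.1) i ys x k) ≤
        η * (1 / 2 : ℝ) ^ F.Lc)
    (hfail : ∀ f x, pr (fun ω : Om3 V n => F.fail d f x (tw τ ω)) ≤ η)
    (hfail' : ∀ f x, ∀ W ∈ cJ d f [hd f], ∀ i k ys, ys.length = F.Lc →
      pr (fun ω : Om3 V n => F.fail d f x (tw τ ω) ∧
        F.toStr.mt (F.kap (τ ω.1) ω.2.1) i ys (F.toStr.ev (F.toStr.base f x) W) k) ≤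
          η * (1 / 2 : ℝ) ^ F.Lc)
    (v : V) :
    ∑ i, pr (fun ω : Om3 V n => F.Bad d i (tw τ ω) ∧ v ∈ F.Q d i (tw τ ω)) ≤ 3 * (F.MM d : ℝ) * η := by
  rw [Fintype.sum_sum_type, Fintype.sum_sum_type, Fintype.sum_prod_type (α₁ := Bool × Bool),
    Fintype.sum_prod_type (α₁ := Bool) (α₂ := V)]
  have hA : ∑ x, pr (fun ω : Om3 V n => F.Bad d (Sum.inl x) (tw τ ω) ∧ v ∈ F.Q d (Sum.inl x) (tw τ ω)) ≤
      (F.KL : ℝ) * η :=
    sum_QL F (fun x ω => F.gap x (tw τ ω)) (fun x => x) Function.injective_id η hη hgap v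
  have hB : ∑ ik : Bool × Bool, ∑ x, pr (fun ω : Om3 V n =>
      F.Bad d (Sum.inr (Sum.inl (ik, x))) (tw τ ω) ∧ v ∈ F.Q d (Sum.inr (Sum.inl (ik, x))) (tw τ ω)) ≤
      ((4 * ((F.Lc + 1) * (2 * F.KL)) : ℕ) : ℝ) * η := by
    refine (Finset.sum_le_sum
      (g := fun _ => (((F.Lc + 1) * (2 * F.KL) : ℕ) : ℝ) * η) fun ik _ => ?_).trans ?_
    · exact qch_sum F (fun x ω => F.long ik.1 ik.2 x (tw τ ω)) (fun x => x) Function.injective_id ik.1 ik.2
        η hη (fun x ys hys => hlong ik.1 ik.2 x ys hys) v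
    · rw [Finset.sum_const, nsmul_eq_mul, ← mul_assoc, Finset.card_univ,
        Fintype.card_prod, Fintype.card_bool]
      push_cast
      exact le_of_eq (by ring)
  have hC : ∑ f : Bool, ∑ x, pr (fun ω : Om3 V n =>
      F.Bad d (Sum.inr (Sum.inr (f, x))) (tw τ ω) ∧ v ∈ F.Q d (Sum.inr (Sum.inr (f, x))) (tw τ ω)) ≤
      ((2 * (1 + 3 ^ (d + 1) * F.KL + 3 ^ d * 4 * ((F.Lc + 1) * (2 * F.KL))) : ℕ) : ℝ) * η := by
    refine (Finset.sum_le_sum (g := fun _ =>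
      ((1 + 3 ^ (d + 1) * F.KL + 3 ^ d * 4 * ((F.Lc + 1) * (2 * F.KL)) : ℕ) : ℝ) * η)
        fun f _ => ?_).trans ?_
    · exact sum_fail F d η hη f (hfail f) (hfail' f) v
    · rw [Finset.sum_const, nsmul_eq_mul, ← mul_assoc, Finset.card_univ, Fintype.card_bool]
      push_cast
      exact le_of_eq (by ring)
  have hN : F.KL + (4 * ((F.Lc + 1) * (2 * F.KL)) +
      2 * (1 + 3 ^ (d + 1) * F.KL + 3 ^ d * 4 * ((F.Lc + 1) * (2 * F.KL)))) ≤ 3 * F.MM d := by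
    have hK : 1 ≤ F.KL := Nat.mul_pos (Nat.succ_pos _) (pow_pos (by norm_num) _)
    have hb : 1 ≤ 3 ^ d := pow_pos (by norm_num : 0 < 3) _
    unfold Frame.MM
    rw [pow_succ]
    generalize F.KL = K at hK
    generalize 3 ^ d = b at hb
    generalize F.Lc = c
    obtain ⟨K, rfl⟩ : ∃ K', K = K' + 1 := ⟨K - 1, by omega⟩
    obtain ⟨b, rfl⟩ : ∃ b', b = b' + 1 := ⟨b - 1, by omega⟩
    ring_nf
    omega
  have hN' : ((F.KL + (4 * ((F.Lc + 1) * (2 * F.KL)) +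
      2 * (1 + 3 ^ (d + 1) * F.KL + 3 ^ d * 4 * ((F.Lc + 1) * (2 * F.KL)))) : ℕ) : ℝ) ≤
      ((3 * F.MM d : ℕ) : ℝ) := by exact_mod_cast hN
  have := mul_le_mul_of_nonneg_right hN' hη
  rw [Nat.cast_add, Nat.cast_add, Nat.cast_mul 3, Nat.cast_ofNat] at this
  linarith

end Pool.Agent.TC.K
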